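import Pool.Agent.P.MP_9682d1_al.E.Defs
import Pool.Agent.P.MP_9682d1_al.C.Glue
import Pool.Agent.P.MP_9682d1_al.Main

set_option autoImplicit false

namespace Pool.Agent.P.MP_9682d1_al.E

open Pool.Agent.P.MP_9682d1_al.C

section
variable {G : Type*} [Group G]

/-- subgroups of a nilpotent subnormal subgroup are subnormal -/
theorem subnormal_of_lcs {A Z : Subgroup G} (hA : A.IsSubnormal) {d : ℕ}
    (hd : A.lowerCentralSeries d = ⊥) (hZ : Z ≤ A) : Z.IsSubnormal := by
  have key : ∀ i, (Z ⊔ A.lowerCentralSeries i).IsSubnormal := by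
    intro i
    induction i with
    | zero => rwa [Subgroup.lowerCentralSeries_zero, sup_eq_right.2 hZ]
    | succ i ih =>
      refine .step _ _ (sup_le_sup_left (A.lowerCentralSeries_antitone i.le_succ) Z) ih
        (Subgroup.normal_subgroupOf_of_le_normalizer
          (sup_le (le_sup_left.trans Subgroup.le_normalizer) ?_))
      rw [Subgroup.le_normalizer_iff_commutator_le_right]
      exact (Subgroup.commutator_mono le_rfl
        (sup_le hZ (A.lowerCentralSeries_le_self _))).trans le_sup_right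
  have := key d
  rwa [hd, sup_bot_eq] at this

/-- the lower central series of a directed union -/
theorem lcs_iSup {ι : Type*} [Nonempty ι] {K : ι → Subgroup G} (hK : Directed (· ≤ ·) K) (d : ℕ) :
    (⨆ i, K i).lowerCentralSeries d ≤ ⨆ i, (K i).lowerCentralSeries d := by
  induction d with
  | zero => exact le_rfl
  | succ d ih =>
    refine Subgroup.commutator_le.2 fun x hx y hy => ?_
    obtain ⟨i, hi⟩ := (Subgroup.mem_iSup_of_directed
      (hK.mono_comp _ fun _ _ h => Subgroup.lowerCentralSeries_mono d h)).1 (ih hx)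
    obtain ⟨j, hj⟩ := (Subgroup.mem_iSup_of_directed hK).1 hy
    obtain ⟨k, hik, hjk⟩ := hK i j
    exact Subgroup.mem_iSup_of_mem k (Subgroup.commutator_mem_commutator
      (Subgroup.lowerCentralSeries_mono d hik hi) (hjk hj))

/-- the subgroup generated by the conjugates of `a` by elements of `N` -/
def ncl (a : G) (N : Subgroup G) : Subgroup G := Subgroup.closure {x | ∃ n ∈ N, x = n⁻¹ * a * n}

theorem cj_mem_ncl (a : G) {N : Subgroup G} {n : G} (hn : n ∈ N) : n⁻¹ * a * n ∈ ncl a N :=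
  Subgroup.subset_closure ⟨n, hn, rfl⟩

theorem ncl_le {a : G} {N L : Subgroup G} (h : ∀ n ∈ N, n⁻¹ * a * n ∈ L) : ncl a N ≤ L := by
  rw [ncl, Subgroup.closure_le]
  rintro _ ⟨n, hn, rfl⟩
  exact h n hn

theorem ncl_normal (a : G) (N : Subgroup G) : ((ncl a N).subgroupOf N).Normal := by
  refine ⟨fun g hg n => ?_⟩
  have := cj_closure (L := ncl a N) (s := (n : G)⁻¹) (g := g) (by
    rintro _ ⟨m, hm, rfl⟩
    have := cj_mem_ncl a (N.mul_mem hm (N.inv_mem n.2))
    simpa [mul_assoc] using this) hg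
  rwa [inv_inv] at this

theorem ncl_mono (a : G) {N N' : Subgroup G} (h : N ≤ N') : ncl a N ≤ ncl a N' :=
  ncl_le fun _ hn => cj_mem_ncl a (h hn)

/-- a bound for all finite subsets gives a bound for the whole set -/
theorem lcs_ncl {a : G} {X : Set G} (ha : a ∈ X) {d : ℕ} (h : ∀ T : Set G, T.Finite → T ⊆ X →
    a ∈ T → (ncl a (Subgroup.closure T)).lowerCentralSeries d = ⊥) :
    (ncl a (Subgroup.closure X)).lowerCentralSeries d = ⊥ := by
  have : Nonempty {T : Set G // T.Finite ∧ T ⊆ X ∧ a ∈ T} :=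
    ⟨⟨{a}, Set.finite_singleton a, Set.singleton_subset_iff.2 ha, rfl⟩⟩
  have hK : Directed (· ≤ ·) fun T : {T : Set G // T.Finite ∧ T ⊆ X ∧ a ∈ T} =>
      ncl a (Subgroup.closure T.1) := fun T T' =>
    ⟨⟨T.1 ∪ T'.1, T.2.1.union T'.2.1, Set.union_subset T.2.2.1 T'.2.2.1, Or.inl T.2.2.2⟩,
      ncl_mono a (Subgroup.closure_mono Set.subset_union_left),
      ncl_mono a (Subgroup.closure_mono Set.subset_union_right)⟩
  refine le_bot_iff.1 (((Subgroup.lowerCentralSeries_mono d (ncl_le fun n hn => ?_)).trans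
    (lcs_iSup hK d)).trans (iSup_le fun T => (h T.1 T.2.1 T.2.2.1 T.2.2.2).le))
  obtain ⟨E, hE, hX, hn'⟩ := exists_fin_closure (Set.finite_singleton n)
    (Set.singleton_subset_iff.2 hn)
  refine Subgroup.mem_iSup_of_mem
    ⟨insert a E, hE.insert a, Set.insert_subset ha hX, Set.mem_insert _ _⟩ ?_
  exact cj_mem_ncl a (Subgroup.closure_mono (Set.subset_insert a E) (hn' rfl))

theorem ncl_le_map {N : Subgroup G} (a : N) :
    ncl (a : G) N ≤ (Subgroup.normalClosure ({a} : Set N)).map N.subtype := ncl_le fun n hn =>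
  ⟨(⟨n, hn⟩ : N)⁻¹ * a * ⟨n, hn⟩, cj_normal (Subgroup.normalClosure ({a} : Set N)) a
    (Subgroup.subset_normalClosure (Set.mem_singleton a)) ⟨n, hn⟩, rfl⟩

end

theorem baer_of {d : ℕ} (h : E3 d) {G : Type} [Group G] {a : G} (ha : RE 4 a) (hp : a ∈ C.HP G) :
    a ∈ sSup {H : Subgroup G | IsCyclic H ∧ H.IsSubnormal} := by
  have h5 : (ncl a (Subgroup.closure (cls a))).lowerCentralSeries d = ⊥ := by
    refine lcs_ncl (self_mem_cls a) fun T hT hX haT => ?_
    have h3 := h (Subgroup.closure T) (Subtype.val ⁻¹' T) ⟨a, Subgroup.subset_closure haT⟩ haT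
      (hT.preimage Subtype.val_injective.injOn) Subgroup.closure_closure_coe_preimage
      (mem_HP_iff.1 hp T hT hX)
      fun t ht => RE.of_map (Subgroup.closure T).subtype_injective (ha.cls (hX ht))
    have h4 := congrArg (Subgroup.map (Subgroup.closure T).subtype) h3
    rw [Subgroup.map_lowerCentralSeries, Subgroup.map_bot] at h4
    rw [eq_bot_iff, ← h4]
    exact Subgroup.lowerCentralSeries_mono d (ncl_le_map ⟨a, Subgroup.subset_closure haT⟩)
  have h6 : (ncl a (Subgroup.closure (cls a))).IsSubnormal :=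
    .step _ _ (ncl_le fun n _ => Subgroup.subset_closure (cj_mem_cls a n))
      (cj_cls a).normal.isSubnormal (ncl_normal a _)
  have h7 : (Subgroup.zpowers a).IsSubnormal := subnormal_of_lcs h6 h5 (by
    rw [Subgroup.zpowers_le]
    simpa using cj_mem_ncl a (Subgroup.closure (cls a)).one_mem)
  exact le_sSup (s := {H : Subgroup G | IsCyclic H ∧ H.IsSubnormal}) ⟨inferInstance, h7⟩
    (Subgroup.mem_zpowers a)

/-- the least Engel length is five -/
theorem least_five {d : ℕ} (h : E3 d) (hH : ∀ (G : Type) [Group G] (a : G), RE 4 a → a ∈ C.HP G) :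
    IsLeast {m : ℕ | 0 < m ∧ ∃ (G : Type) (_ : Group G) (a : G),
      (∀ x : G, (fun c : G => c⁻¹ * (x⁻¹ * c * x))^[m] a = 1) ∧
        a ∉ sSup {H : Subgroup G | IsCyclic H ∧ H.IsSubnormal}} 5 := by
  refine ⟨⟨by norm_num, main⟩, ?_⟩
  rintro m ⟨-, G, _, a, ha, hB⟩
  by_contra hm
  have h4 : RE 4 a := RE.mono ha (by omega)
  exact hB (baer_of h h4 (hH G a h4))

end Pool.Agent.P.MP_9682d1_al.E
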