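import Pool.Agent.P.MP_9682d1_al.E.Defs

/-!
Step E2: the graded ring of the weighted filtration.
-/

set_option autoImplicit false
set_option linter.unusedSectionVars false

namespace Pool.Agent.P.MP_9682d1_al.E

open Pool.Agent.P.MP_9682d1_al.C Polynomial

namespace Gr

/-- the graded ring of a filtered ring, with its symbol map -/
theorem graded {R : Type} [Ring R] (F : ℕ → AddSubgroup R) (mono : ∀ n, F (n + 1) ≤ F n)
    (one : (1 : R) ∈ F 0) (mul : ∀ {n m r s}, r ∈ F n → s ∈ F m → r * s ∈ F (n + m)) :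
    ∃ (S : Type) (_ : Ring S) (σ : ℕ → R → S), Sym (fun n r => r ∈ F n) σ ∧
      ∀ (n p : ℕ) (r : R) (s : S), r ∈ F n → σ n r = p • s → ∃ r' ∈ F n, r - p • r' ∈ F (n + 1) := by
  classical
  have cm : ∀ (i j : ℕ) (f g : R[X]), (∀ n, f.coeff n ∈ F (n + i)) → (∀ n, g.coeff n ∈ F (n + j)) →
      ∀ n, (f * g).coeff n ∈ F (n + (i + j)) := fun i j f g hf hg n => by
    rw [coeff_mul]
    refine sum_mem fun x hx => ?_
    have := mul (hf x.1) (hg x.2)
    rwa [add_add_add_comm, Finset.HasAntidiagonal.mem_antidiagonal.1 hx] at this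
  have mo : ∀ (i n : ℕ) (r : R), r ∈ F (n + i) → ∀ m, (monomial n r).coeff m ∈ F (m + i) :=
    fun i n r h m => by
    rw [coeff_monomial]
    split_ifs with e
    exacts [e ▸ h, zero_mem _]
  let A : Subring R[X] :=
    { carrier := {f | ∀ n, f.coeff n ∈ F n}
      zero_mem' := fun n => by simp
      one_mem' := mo 0 0 1 one
      add_mem' := fun hf hg n => by rw [coeff_add]; exact add_mem (hf n) (hg n)
      neg_mem' := fun hf n => by rw [coeff_neg]; exact neg_mem (hf n)
      mul_mem' := fun hf hg => cm 0 0 _ _ hf hg }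
  let J : Ideal A :=
    { carrier := {f | ∀ n, f.1.coeff n ∈ F (n + 1)}
      zero_mem' := fun n => by simp
      add_mem' := fun hf hg n => by
        rw [Subring.coe_add, coeff_add]; exact add_mem (hf n) (hg n)
      smul_mem' := fun f g hg => cm 0 1 _ _ f.2 hg }
  have : J.IsTwoSided := ⟨fun g hf => cm 1 0 _ _ hf g.2⟩
  let σ : ℕ → R → A ⧸ J := fun n r =>
    if h : r ∈ F n then Ideal.Quotient.mk J ⟨monomial n r, mo 0 n r h⟩ else 0
  have hσ : ∀ {n r} (h : r ∈ F n), σ n r = Ideal.Quotient.mk J ⟨monomial n r, mo 0 n r h⟩ :=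
    fun h => dif_pos h
  refine ⟨A ⧸ J, inferInstance, σ, ⟨fun h h' => ?_, fun h => ?_, fun h h' => ?_, fun h => ?_, ?_⟩,
    fun n p r s h e => ?_⟩
  · rw [hσ h, hσ h', hσ (add_mem h h'), ← RingHom.map_add]
    exact congrArg _ (Subtype.ext (map_add _ _ _))
  · rw [hσ h, hσ (neg_mem h), ← RingHom.map_neg]
    exact congrArg _ (Subtype.ext (map_neg _ _))
  · rw [hσ h, hσ h', hσ (mul h h'), ← RingHom.map_mul]
    exact congrArg _ (Subtype.ext (monomial_mul_monomial _ _ _ _).symm)
  · rw [hσ (mono _ h)]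
    exact Ideal.Quotient.eq_zero_iff_mem.2 (mo 1 _ _ h)
  · rw [hσ one]
    exact RingHom.map_one (Ideal.Quotient.mk J)
  · obtain ⟨g, rfl⟩ := Ideal.Quotient.mk_surjective s
    rw [hσ h, ← map_nsmul (Ideal.Quotient.mk J), Ideal.Quotient.eq] at e
    refine ⟨g.1.coeff n, g.2 n, ?_⟩
    simpa using e n

variable {H R : Type} [Group H] [Ring R] (ρ : H →* Rˣ) (T : Set H) (a : H) (W : ℕ)

/-- the filtration as additive subgroups -/
def FA (n : ℕ) : AddSubgroup R where
  carrier := {r | Fw ρ T a W n r}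
  zero_mem' := .zero n
  add_mem' := .add
  neg_mem' := .neg

theorem one_mem : Fw ρ T a W 0 (1 : R) := by simpa using Fw.unit (ρ := ρ) (T := T) (a := a) (W := W) 1

/-- the elements that act as `1` modulo the `n`-th term -/
def NG (n : ℕ) : Subgroup H where
  carrier := {g | Fw ρ T a W n ((ρ g : Rˣ) - 1)}
  one_mem' := by simpa using Fw.zero (ρ := ρ) (T := T) (a := a) (W := W) n
  mul_mem' {g h} hg hh := by
    have := (Fw.mul hg (.unit h)).add hh
    simpa [sub_mul] using this
  inv_mem' {g} hg := by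
    have := (Fw.mul (.unit g⁻¹) hg).neg
    simpa [mul_sub] using this

theorem NG_normal (n : ℕ) : (NG ρ T a W n).Normal := ⟨fun g hg h => by
  have := (Fw.mul (.unit h) hg).mul (.unit h⁻¹)
  simpa [NG, mul_sub, sub_mul] using this⟩

/-- the value of a word -/
def val (w : List (Option H)) : R := (w.map fun o => ((ρ (o.getD a) : Rˣ) : R) - 1).prod

/-- the weight of a word -/
def wt (w : List (Option H)) : ℕ := (w.map fun o => if o.isNone then W else 1).sum

variable {ρ T a W}

theorem val_append (v w : List (Option H)) : val ρ a (v ++ w) = val ρ a v * val ρ a w := by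
  simp [val]

theorem wt_append (v w : List (Option H)) : wt W (v ++ w) = wt W v + wt W w := by simp [wt]

theorem val_mem : ∀ w : List (Option H), (∀ t, some t ∈ w → t ∈ T) → Fw ρ T a W (wt W w) (val ρ a w)
  | [], _ => one_mem ρ T a W
  | none :: w, h => Fw.mul .gena (val_mem w fun t ht => h t (.tail _ ht))
  | some t :: w, h => Fw.mul (.gen (h t (.head _))) (val_mem w fun t ht => h t (.tail _ ht))

theorem wt_one (w : List (Option H)) : wt 1 w = w.length := by simp [wt]

theorem wt_le (w : List (Option H)) : wt W w ≤ w.countP Option.isNone * W + w.length := by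
  induction w with
  | nil => simp [wt]
  | cons o w ih =>
    cases o <;> simp [wt, add_mul] at ih ⊢ <;> omega

theorem split {α : Type} : ∀ (w : List (Option α)) (c : ℕ), c ≤ w.countP Option.isNone →
    ∃ u v, w = u ++ v ∧ u.countP Option.isNone = c
  | w, 0, _ => ⟨[], w, rfl, rfl⟩
  | [], c + 1, h => by simp at h
  | none :: w, c + 1, h => by
    obtain ⟨u, v, rfl, e⟩ := split w c (by simpa using h)
    exact ⟨none :: u, v, rfl, by simpa using e⟩
  | some t :: w, c + 1, h => by
    obtain ⟨u, v, rfl, e⟩ := split w (c + 1) (by simpa using h)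
    exact ⟨some t :: u, v, rfl, by simpa using e⟩

variable (ρ T a W) in
/-- the words of weight `n` and the next term of the filtration -/
def Gn (n : ℕ) : Set R :=
  {r | (∃ w : List (Option H), (∀ t, some t ∈ w → t ∈ T) ∧ wt W w = n ∧ r = val ρ a w) ∨
    Fw ρ T a W (n + 1) r}

theorem Gn_mem {n : ℕ} {r : R} (h : r ∈ Gn ρ T a W n) : Fw ρ T a W n r := by
  obtain ⟨w, h, rfl, rfl⟩ | h := h
  exacts [val_mem w h, h.mono n.le_succ]

theorem Gn_mul {n m : ℕ} {r s : R} (h : r ∈ Gn ρ T a W n) (h' : s ∈ Gn ρ T a W m) :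
    r * s ∈ Gn ρ T a W (n + m) := by
  rcases h with ⟨v, h, rfl, rfl⟩ | h
  · rcases h' with ⟨w, h', rfl, rfl⟩ | h'
    · exact .inl ⟨v ++ w, fun t ht => (List.mem_append.1 ht).elim (h t) (h' t), wt_append _ _,
        (val_append _ _).symm⟩
    · exact .inr ((val_mem v h).mul h')
  · exact .inr ((h.mul (Gn_mem h')).mono (by omega))

theorem span (hT : Subgroup.closure T = ⊤) {n : ℕ} {r : R} (h : Fw ρ T a W n r) :
    r ∈ AddSubgroup.closure (Gn ρ T a W n) := by
  induction h with
  | zero n => exact zero_mem _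
  | add _ _ h h' => exact add_mem h h'
  | neg _ h => exact neg_mem h
  | mono e h ih =>
    rcases e.eq_or_lt with rfl | e
    exacts [ih, AddSubgroup.subset_closure (.inr (h.mono e))]
  | unit g =>
    have : g ∈ NG ρ T a W 1 := (hT.ge.trans ((Subgroup.closure_le _).2 fun t ht => Fw.gen ht)) trivial
    simpa using add_mem (AddSubgroup.subset_closure (k := Gn ρ T a W 0) (.inr this))
      (AddSubgroup.subset_closure (k := Gn ρ T a W 0) (a := 1) (.inl ⟨[], by simp, rfl, rfl⟩))
  | @gen t ht => exact AddSubgroup.subset_closure (.inl ⟨[some t], by simpa using ht, rfl, by simp [val]⟩)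
  | gena => exact AddSubgroup.subset_closure (.inl ⟨[none], by simp, by simp [wt], by simp [val]⟩)
  | mul h1 h2 h h' =>
    clear h1 h2
    induction h using AddSubgroup.closure_induction with
    | zero => simp
    | add _ _ _ _ i j => rw [add_mul]; exact add_mem i j
    | neg _ _ i => rw [neg_mul]; exact neg_mem i
    | mem x hx =>
      induction h' using AddSubgroup.closure_induction with
      | zero => simp
      | add _ _ _ _ i j => rw [mul_add]; exact add_mem i j
      | neg _ _ i => rw [mul_neg]; exact neg_mem i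
      | mem y hy => exact AddSubgroup.subset_closure (Gn_mul hx hy)

theorem to_one (hW : 1 ≤ W) {n : ℕ} {r : R} (h : Fw ρ T a W n r) :
    ∃ k, n ≤ k * W ∧ Fw ρ T a 1 k r := by
  induction h with
  | zero n => exact ⟨n, Nat.le_mul_of_pos_right _ hW, .zero n⟩
  | add _ _ h h' =>
    obtain ⟨k, e, h⟩ := h
    obtain ⟨k', e', h'⟩ := h'
    rcases le_total k k' with l | l
    exacts [⟨k, e, h.add (h'.mono l)⟩, ⟨k', e', (h.mono l).add h'⟩]
  | neg _ h => exact h.imp fun _ h => ⟨h.1, h.2.neg⟩
  | mono e _ h => exact h.imp fun _ h => ⟨e.trans h.1, h.2⟩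
  | unit g => exact ⟨0, by simp, .unit g⟩
  | gen ht => exact ⟨1, by simpa using hW, .gen ht⟩
  | gena => exact ⟨1, by simp, .gena⟩
  | mul _ _ h h' =>
    obtain ⟨k, e, h⟩ := h
    obtain ⟨k', e', h'⟩ := h'
    exact ⟨k + k', by rw [add_mul]; omega, h.mul h'⟩

theorem sym_val {S : Type} [Ring S] {σ : ℕ → R → S} (hσ : Sym (Fw ρ T a W) σ) :
    ∀ w : List (Option H), (∀ t, some t ∈ w → t ∈ T) → σ (wt W w) (val ρ a w) =
      ev (σ W ((ρ a : Rˣ) - 1)) (w.map (Option.map fun t => σ 1 ((ρ t : Rˣ) - 1)))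
  | [], _ => hσ.one
  | none :: w, h => by
    have h' : ∀ t, some t ∈ w → t ∈ T := fun t ht => h t (.tail _ ht)
    exact (hσ.mul .gena (val_mem w h')).trans (congrArg _ (sym_val hσ w h'))
  | some t :: w, h => by
    have h' : ∀ t, some t ∈ w → t ∈ T := fun t ht => h t (.tail _ ht)
    exact (hσ.mul (.gen (h t (.head _))) (val_mem w h')).trans (congrArg _ (sym_val hσ w h'))

end Gr

open Gr in
theorem e2_of {c : ℕ} (h1 : E1 c) (h2 : E2b) : E2 c := by
  rintro H R _ _ ρ T a ha hT hΦ ⟨q, hq⟩ p hp k l hl hN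
  obtain ⟨S, _, σ, hσ, hom⟩ := graded (FA ρ T a (q + 1)) (fun n _ h => Fw.mono n.le_succ h)
    (one_mem ρ T a _) Fw.mul
  obtain ⟨L0, L, L1, L2, ids, hL⟩ := h2 H R S ρ T a (q + 1) σ (by omega) ha hΦ hσ
  have step : ∀ n, c * (q + 1) + q ≤ n + q → ∀ r ∈ FA ρ T a (q + 1) n,
      ∃ r' ∈ FA ρ T a (q + 1) n, r - p • r' ∈ FA ρ T a (q + 1) (n + 1) := fun n hn r h => by
    have h' := span hT h
    clear h
    induction h' using AddSubgroup.closure_induction with
    | zero => exact ⟨0, zero_mem _, by simp⟩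
    | add _ _ _ _ i j =>
      obtain ⟨x, i1, i2⟩ := i
      obtain ⟨y, j1, j2⟩ := j
      exact ⟨x + y, add_mem i1 j1, by rw [smul_add, add_sub_add_comm]; exact add_mem i2 j2⟩
    | neg _ _ i =>
      obtain ⟨x, i1, i2⟩ := i
      exact ⟨-x, neg_mem i1, by rw [smul_neg, ← neg_sub']; exact neg_mem i2⟩
    | mem x hx =>
      rcases hx with ⟨w, hw, rfl, rfl⟩ | hx
      · by_cases e : c ≤ w.countP Option.isNone
        · obtain ⟨u, v, rfl, hu⟩ := split w c e
          have hu' : ∀ t, some t ∈ u → t ∈ T := fun t ht => hw t (List.mem_append_left _ ht)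
          have hv' : ∀ t, some t ∈ v → t ∈ T := fun t ht => hw t (List.mem_append_right _ ht)
          obtain ⟨t, -, ht⟩ := h1 S _ L0 L L1 L2 ids p hp _
            ⟨u.map (Option.map fun t => σ 1 ((ρ t : Rˣ) - 1)), fun y hy => by
              obtain ⟨o, ho, e⟩ := List.mem_map.1 hy
              obtain ⟨t, rfl, rfl⟩ := Option.map_eq_some_iff.1 e
              exact hL t (hu' t ho), by rw [List.countP_map, ← hu]; congr 1; ext o; cases o <;> rfl, rfl⟩
          refine hom _ p _ (t * σ (wt (q + 1) v) (val ρ a v)) (val_mem _ hw) ?_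
          rw [wt_append, val_append, hσ.mul (val_mem u hu') (val_mem v hv'), sym_val hσ u hu', ht,
            smul_mul_assoc]
        · have e1 := wt_le (W := q + 1) w
          have e2 : (w.countP Option.isNone + 1) * (q + 1) ≤ c * (q + 1) :=
            Nat.mul_le_mul_right _ (by omega)
          have : val ρ a w = 0 := hq _ ((val_mem (W := 1) w hw).mono (by
            rw [wt_one]; rw [add_mul] at e2; omega))
          exact ⟨0, zero_mem _, by simp [this]⟩
      · exact ⟨0, zero_mem _, by rw [smul_zero, sub_zero]; exact hx⟩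
  have dv : ∀ d n, c * (q + 1) ≤ n → q * (q + 1) ≤ n + d → ∀ r ∈ FA ρ T a (q + 1) n,
      ∃ r' ∈ FA ρ T a (q + 1) n, r = p • r' := fun d => by
    induction d with
    | zero =>
      intro n _ e r h
      obtain ⟨k, e', h'⟩ := to_one (by omega) h
      exact ⟨0, zero_mem _, by
        rw [hq r (h'.mono (Nat.le_of_mul_le_mul_right (e.trans e') q.succ_pos)), smul_zero]⟩
    | succ d ih =>
      intro n e e' r h
      obtain ⟨x, h1, h2⟩ := step n (by omega) r h
      obtain ⟨y, h3, h4⟩ := ih (n + 1) (by omega) (by omega) _ h2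
      exact ⟨y + x, add_mem (Fw.mono n.le_succ h3) h1, by rw [smul_add, ← h4, sub_add_cancel]⟩
  have it : ∀ k : ℕ, ∀ r ∈ FA ρ T a (q + 1) (c * (q + 1)),
      ∃ r' ∈ FA ρ T a (q + 1) (c * (q + 1)), r = p ^ k • r' := fun k r h => by
    induction k with
    | zero => exact ⟨r, h, by simp⟩
    | succ k ih =>
      obtain ⟨x, h1, rfl⟩ := ih
      obtain ⟨y, h2, rfl⟩ := dv (q * (q + 1)) _ le_rfl (by omega) x h1
      exact ⟨y, h2, by rw [smul_smul, pow_succ]⟩
  have := NG_normal ρ T a (q + 1) (q + 1)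
  have hle : Subgroup.normalClosure ({a} : Set H) ≤ NG ρ T a (q + 1) (q + 1) :=
    Subgroup.normalClosure_le_normal (Set.singleton_subset_iff.2 Fw.gena)
  have pr : ∀ l : List H, (∀ g ∈ l, g ∈ Subgroup.normalClosure ({a} : Set H)) →
      Fw ρ T a (q + 1) (l.length * (q + 1)) (l.map fun g => ((ρ g : Rˣ) : R) - 1).prod := fun l h => by
    induction l with
    | nil => simpa using one_mem ρ T a _
    | cons g l ih =>
      rw [List.length_cons, add_mul, one_mul, add_comm (l.length * _)]
      exact Fw.mul (hle (h g (.head _))) (ih fun g hg => h g (.tail _ hg))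
  obtain ⟨r, -, e⟩ := it k _ (hl ▸ pr l hN)
  exact ⟨r, e⟩

end Pool.Agent.P.MP_9682d1_al.E
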