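import Pool.Agent.P.MP_9682d1_al.E.Defs
import Pool.Agent.P.MP_9682d1_al.A.Hall
import Pool.Agent.P.MP_9682d1_al.A.Iso

set_option autoImplicit false

namespace Pool.Agent.P.MP_9682d1_al.E

open Pool.Agent.P.MP_9682d1_al.C
open scoped commutatorElement

/-- a faithful right action of a ring on an abelian normal subgroup that extends conjugation -/
structure g3Act {H R : Type} [Group H] [Ring R] (V : Subgroup H) (ρ : H →* Rˣ)
    (act : R → V → V) : Prop where
  comm : ∀ v w : V, v * w = w * v
  ext : ∀ r : R, (∀ v, act r v = 1) → r = 0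
  add : ∀ (r s : R) (v : V), act (r + s) v = act r v * act s v
  mul : ∀ (r s : R) (v : V), act (r * s) v = act s (act r v)
  hom : ∀ (r : R) (v w : V), act r (v * w) = act r v * act r w
  rho : ∀ (h : H) (v : V), ((act (ρ h : Rˣ) v : V) : H) = h⁻¹ * v * h

theorem g3_exists {H : Type} [Group H] (V : Subgroup H) [V.Normal]
    (hV : ∀ v w : V, v * w = w * v) :
    ∃ (R : Type) (_ : Ring R) (ρ : H →* Rˣ) (act : R → V → V), g3Act V ρ act := by
  letI : CommGroup V := { (inferInstance : Group V) with mul_comm := hV }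
  let f : H →* (AddMonoid.End (Additive V))ᵐᵒᵖ :=
    { toFun := fun h => MulOpposite.op
        (MonoidHom.toAdditive (MulAut.conjNormal (H := V) h⁻¹).toMonoidHom)
      map_one' := by
        apply MulOpposite.unop_injective
        apply AddMonoidHom.ext
        intro v
        apply Additive.toMul.injective
        apply Subtype.ext
        change ((MulAut.conjNormal (H := V) (1 : H)⁻¹ (Additive.toMul v) : V) : H) =
          ((Additive.toMul v : V) : H)
        simp
      map_mul' := by
        intro g h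
        apply MulOpposite.unop_injective
        apply AddMonoidHom.ext
        intro v
        apply Additive.toMul.injective
        apply Subtype.ext
        change ((MulAut.conjNormal (H := V) (g * h)⁻¹ (Additive.toMul v) : V) : H) =
          ((MulAut.conjNormal (H := V) h⁻¹
            (MulAut.conjNormal (H := V) g⁻¹ (Additive.toMul v)) : V) : H)
        simp only [MulAut.conjNormal_apply]
        group }
  refine ⟨(AddMonoid.End (Additive V))ᵐᵒᵖ, inferInstance, f.toHomUnits,
    fun r v => Additive.toMul (r.unop (Additive.ofMul v)), hV, ?_, ?_, ?_, ?_, ?_⟩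
  · intro r h
    apply MulOpposite.unop_injective
    apply AddMonoidHom.ext
    intro v
    exact h (Additive.toMul v)
  · intro r s v
    rfl
  · intro r s v
    rfl
  · intro r v w
    exact congrArg Additive.toMul (map_add r.unop (Additive.ofMul v) (Additive.ofMul w))
  · intro h v
    change ((MulAut.conjNormal (H := V) h⁻¹ v : V) : H) = _
    simp only [MulAut.conjNormal_apply, inv_inv]

namespace g3Act

variable {H R : Type} [Group H] [Ring R] {V : Subgroup H} {ρ : H →* Rˣ} {act : R → V → V}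

theorem zero (A : g3Act V ρ act) (v : V) : act 0 v = 1 := by
  have := A.add 0 0 v
  rw [add_zero] at this
  exact left_eq_mul.mp this

theorem neg (A : g3Act V ρ act) (r : R) (v : V) : act (-r) v = (act r v)⁻¹ := by
  have := A.add (-r) r v
  rw [neg_add_cancel, A.zero] at this
  exact eq_inv_of_mul_eq_one_left this.symm

theorem sub (A : g3Act V ρ act) (r s : R) (v : V) : act (r - s) v = act r v * (act s v)⁻¹ := by
  rw [sub_eq_add_neg, A.add, A.neg]

theorem one (A : g3Act V ρ act) (v : V) : act 1 v = v := by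
  apply Subtype.ext
  have := A.rho 1 v
  simpa using this

theorem at_one (A : g3Act V ρ act) (r : R) : act r 1 = 1 := by
  have := A.hom r 1 1
  rw [mul_one] at this
  exact left_eq_mul.mp this

theorem at_inv (A : g3Act V ρ act) (r : R) (v : V) : act r v⁻¹ = (act r v)⁻¹ := by
  have := A.hom r v⁻¹ v
  rw [inv_mul_cancel, A.at_one] at this
  exact eq_inv_of_mul_eq_one_left this.symm

theorem nsmul (A : g3Act V ρ act) (r : R) (v : V) (n : ℕ) : act (n • r) v = act r (v ^ n) := by
  induction n with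
  | zero => rw [zero_smul, A.zero, pow_zero, A.at_one]
  | succ n ih => rw [succ_nsmul, A.add, ih, pow_succ, A.hom]

theorem cmv (A : g3Act V ρ act) (g : H) (v : V) :
    ((act (((ρ g : Rˣ) : R) - 1) v : V) : H) = cm (v : H) g := by
  rw [A.sub, A.one, A.comm, Subgroup.coe_mul, A.rho, Subgroup.coe_inv, cm]

theorem step (A : g3Act V ρ act) (c y : H) (v : V) (φ : R) :
    cm (c * (act φ v : V)) (y * v) = cm c y *
      (act ((1 - ((ρ c : Rˣ) : R) * (ρ (cm c y) : Rˣ)) + φ * (((ρ y : Rˣ) : R) - (ρ (cm c y) : Rˣ))) v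
        : V) := by
  set w := act φ v with hw
  set d := cm c y with hd
  have e : act ((1 - ((ρ c : Rˣ) : R) * (ρ d : Rˣ)) + φ * (((ρ y : Rˣ) : R) - (ρ d : Rˣ))) v =
      (act (ρ d : Rˣ) w)⁻¹ * ((act (ρ d : Rˣ) (act (ρ c : Rˣ) v))⁻¹ * (act (ρ y : Rˣ) w * v)) := by
    rw [A.add, A.sub, A.one, A.mul, A.mul, ← hw, A.sub]
    letI : CommGroup V := { (inferInstance : Group V) with mul_comm := A.comm }
    simp only [mul_comm, mul_left_comm, mul_assoc]
  rw [e]
  simp only [Subgroup.coe_mul, Subgroup.coe_inv, A.rho]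
  rw [hd]
  unfold cm
  group

theorem iter (A : g3Act V ρ act) (u y : H) (v : V) (k : ℕ) :
    ((phiStep (ρ y))^[k] (ρ u, 0)).1 = ρ ((fun c : H => cm c y)^[k] u) ∧
      (fun c : H => cm c (y * v))^[k] u =
        (fun c : H => cm c y)^[k] u * (act ((phiStep (ρ y))^[k] (ρ u, 0)).2 v : V) := by
  induction k with
  | zero => simp [A.zero]
  | succ k ih =>
    obtain ⟨h1, h2⟩ := ih
    simp only [Function.iterate_succ_apply']
    constructor
    · rw [phiStep, h1, map_cm]
    · rw [h2, A.step, phiStep, h1, map_cm]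

theorem phi (A : g3Act V ρ act) {u : H} (hu : RE 4 u) (y : H) : Phi (ρ u) (ρ y) = 0 := by
  apply A.ext
  intro v
  have h := (A.iter u y v 4).2
  have h1 : (fun c : H => cm c (y * v))^[4] u = 1 := hu _
  have h2 : (fun c : H => cm c y)^[4] u = 1 := hu _
  rw [h1, h2, one_mul] at h
  exact Subtype.ext h.symm

theorem fw (A : g3Act V ρ act) {T : Set H} {a : H} {n : ℕ} {r : R} (h : Fw ρ T a 1 n r) :
    ∀ (i : ℕ) (v : V), (v : H) ∈ Subgroup.upperCentralSeries H (i + n) →
      ((act r v : V) : H) ∈ Subgroup.upperCentralSeries H i := by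
  induction h with
  | zero n => intro i v _; rw [A.zero]; exact one_mem _
  | add _ _ h1 h2 =>
    intro i v hv
    rw [A.add]
    exact mul_mem (h1 i v hv) (h2 i v hv)
  | neg _ h1 =>
    intro i v hv
    rw [A.neg]
    exact inv_mem (h1 i v hv)
  | mono hm _ h1 =>
    intro i v hv
    exact h1 i v (Subgroup.upperCentralSeries_mono H (Nat.add_le_add_left hm i) hv)
  | unit h =>
    intro i v hv
    rw [A.rho]
    simpa using Subgroup.Normal.conj_mem inferInstance _ hv h⁻¹
  | gen _ =>
    intro i v hv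
    rw [A.cmv]
    exact cm_mem_ucs hv _
  | gena =>
    intro i v hv
    rw [A.cmv]
    exact cm_mem_ucs hv _
  | @mul n m r s _ _ h1 h2 =>
    intro i v hv
    rw [A.mul]
    apply h2
    apply h1
    rwa [add_assoc, add_comm m n]

end g3Act

theorem g3_re_map {G Q : Type} [Group G] [Group Q] {f : G →* Q} (hf : Function.Surjective f)
    {n : ℕ} {u : G} (hu : RE n u) : RE n (f u) := by
  intro y
  obtain ⟨x, rfl⟩ := hf y
  have : ∀ k : ℕ, (fun c : Q => c⁻¹ * ((f x)⁻¹ * c * f x))^[k] (f u) =
      f ((fun c : G => c⁻¹ * (x⁻¹ * c * x))^[k] u) := by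
    intro k
    induction k with
    | zero => rfl
    | succ k ih => simp only [Function.iterate_succ_apply', ih, map_mul, map_inv]
  rw [this, hu x, map_one]

theorem g3_re_conj {G : Type} [Group G] {n : ℕ} {u : G} (hu : RE n u) (h : G) :
    RE n (h⁻¹ * u * h) := by
  have := g3_re_map (f := (MulAut.conj h⁻¹).toMonoidHom) (MulAut.conj h⁻¹).surjective hu
  simpa using this

/-- iterated commutator with `A` -/
def g3It {G : Type} [Group G] (A X : Subgroup G) : ℕ → Subgroup G
  | 0 => X
  | n + 1 => ⁅g3It A X n, A⁆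

theorem g3It_map {G Q : Type} [Group G] [Group Q] (f : G →* Q) (A X : Subgroup G) (n : ℕ) :
    (g3It A X n).map f = g3It (A.map f) (X.map f) n := by
  induction n with
  | zero => rfl
  | succ n ih => rw [g3It, g3It, Subgroup.map_commutator, ih]

theorem g3It_lcs {G : Type} [Group G] (A : Subgroup G) (i n : ℕ) :
    g3It A (A.lowerCentralSeries i) n = A.lowerCentralSeries (i + n) := by
  induction n with
  | zero => rfl
  | succ n ih => rw [g3It, ih]; rfl

theorem g3It_le {G : Type} [Group G] (A X : Subgroup G) [hX : X.Normal] (n : ℕ) :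
    g3It A X n ≤ X := by
  induction n with
  | zero => exact le_rfl
  | succ n ih =>
    exact (Subgroup.commutator_mono ih le_rfl).trans (Subgroup.commutator_le_left _ _)

/-- the key lemma -/
theorem g3_key {c : ℕ} (h : E2 c) {H : Type} [Group H] [hn : Group.IsNilpotent H] {T : Set H}
    {a : H} (ha : a ∈ T) (hT : Subgroup.closure T = ⊤) (hre : ∀ t ∈ T, RE 4 t) {p : ℕ}
    (hp : p.Prime) (htor : ∀ x : H, ∃ s : ℕ, x ^ (p ^ s) = 1) (V : Subgroup H) [V.Normal]
    (hV : ∀ v w : V, v * w = w * v) :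
    g3It (Subgroup.normalClosure ({a} : Set H)) V c = ⊥ := by
  obtain ⟨R, _, ρ, act, A⟩ := g3_exists V hV
  set N := Subgroup.normalClosure ({a} : Set H) with hN
  have h0 : ∀ (v : V) (l : List H), l.length = c → (∀ g ∈ l, g ∈ N) →
      act (l.map fun g => ((ρ g : Rˣ) : R) - 1).prod v = 1 := by
    intro v l hl hlN
    obtain ⟨s, hs⟩ := htor v
    obtain ⟨r, hr⟩ := h H R ρ T a ha hT (fun t ht g y => A.phi (g3_re_conj (hre t ht) g) y)
      (by
        obtain ⟨q, hq⟩ := hn.nilpotent'
        refine ⟨q, fun r hr => A.ext r fun w => ?_⟩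
        have := A.fw hr 0 w (by rw [zero_add, hq]; trivial)
        rw [Subgroup.upperCentralSeries_zero, Subgroup.mem_bot] at this
        exact Subtype.ext this) p hp s l hl hlN
    have : v ^ (p ^ s) = 1 := Subtype.ext hs
    rw [hr, A.nsmul, this, A.at_one]
  have h1 : ∀ (j m : ℕ), j + m = c → ∀ v : V, (v : H) ∈ g3It N V j → ∀ l : List H,
      l.length = m → (∀ g ∈ l, g ∈ N) →
      act (l.map fun g => ((ρ g : Rˣ) : R) - 1).prod v = 1 := by
    intro j
    induction j with
    | zero =>
      intro m hm v _ l hl hlN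
      exact h0 v l (by omega) hlN
    | succ j ih =>
      intro m hm v hv l hl hlN
      let S : Subgroup V :=
        { carrier := {w | act (l.map fun g => ((ρ g : Rˣ) : R) - 1).prod w = 1}
          one_mem' := A.at_one _
          mul_mem' := by
            intro x y hx hy
            change act _ (x * y) = 1
            rw [A.hom, hx, hy, one_mul]
          inv_mem' := by
            intro x hx
            change act _ x⁻¹ = 1
            rw [A.at_inv, hx, inv_one] }
      have hle : g3It N V (j + 1) ≤ S.map V.subtype := by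
        rw [g3It, Subgroup.commutator_le]
        intro x hx g hg
        have hxV : x⁻¹ ∈ V := inv_mem (g3It_le N V j hx)
        refine ⟨act (((ρ g⁻¹ : Rˣ) : R) - 1) ⟨x⁻¹, hxV⟩, ?_, ?_⟩
        · change act _ _ = 1
          rw [← A.mul]
          have := ih (m + 1) (by omega) ⟨x⁻¹, hxV⟩ (inv_mem hx) (g⁻¹ :: l) (by simp [hl]) (by
            intro y hy
            rcases List.mem_cons.mp hy with rfl | hy
            · exact inv_mem hg
            · exact hlN y hy)
          rwa [List.map_cons, List.prod_cons] at this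
        · rw [Subgroup.coe_subtype, A.cmv, bracket_eq_cm]
      obtain ⟨w, hw, e⟩ := hle hv
      have : w = v := Subtype.ext e
      rw [← this]
      exact hw
  rw [eq_bot_iff]
  intro x hx
  have := h1 c 0 rfl ⟨x, g3It_le N V c hx⟩ hx [] rfl (by simp)
  rw [List.map_nil, List.prod_nil, A.one] at this
  exact Subgroup.mem_bot.mpr (congrArg Subtype.val this)

theorem g3_lcs_comm {G : Type} [Group G] (A : Subgroup G) [A.Normal] (j : ℕ) : ∀ i : ℕ,
    ⁅A.lowerCentralSeries i, A.lowerCentralSeries j⁆ ≤ A.lowerCentralSeries (i + j + 1) := by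
  induction j with
  | zero => intro i; exact le_rfl
  | succ j ih =>
    intro i
    rw [Subgroup.commutator_comm, Subgroup.lowerCentralSeries_succ]
    apply Pool.Agent.P.MP_9682d1_al.A.three_sub
    · rw [Subgroup.commutator_comm A]
      have := ih (i + 1)
      rwa [show i + 1 + j + 1 = i + (j + 1) + 1 by omega] at this
    · exact Subgroup.commutator_mono (ih i) le_rfl

theorem g3_pgroup {c : ℕ} (h : E2 c) {H : Type} [Group H] [hn : Group.IsNilpotent H] {T : Set H}
    {a : H} (ha : a ∈ T) (hT : Subgroup.closure T = ⊤) (hre : ∀ t ∈ T, RE 4 t) {p : ℕ}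
    (hp : p.Prime) (htor : ∀ x : H, ∃ s : ℕ, x ^ (p ^ s) = 1) :
    (Subgroup.normalClosure ({a} : Set H)).lowerCentralSeries (2 * c) = ⊥ := by
  set A := Subgroup.normalClosure ({a} : Set H) with hA
  set M := A.lowerCentralSeries c with hM
  have hs := QuotientGroup.mk'_surjective ⁅M, M⁆
  haveI : (M.map (QuotientGroup.mk' ⁅M, M⁆)).Normal := Subgroup.Normal.map inferInstance _ hs
  have key := g3_key h (H := H ⧸ ⁅M, M⁆) (T := QuotientGroup.mk' ⁅M, M⁆ '' T)
    (a := QuotientGroup.mk' ⁅M, M⁆ a) ⟨a, ha, rfl⟩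
    (by rw [← MonoidHom.map_closure, hT, Subgroup.map_top_of_surjective _ hs])
    (by rintro _ ⟨t, ht, rfl⟩; exact g3_re_map hs (hre t ht)) hp
    (by
      intro x
      obtain ⟨y, rfl⟩ := hs x
      obtain ⟨s, e⟩ := htor y
      exact ⟨s, by rw [← map_pow, e, map_one]⟩)
    (M.map (QuotientGroup.mk' ⁅M, M⁆))
    (by
      rintro ⟨_, x, hx, rfl⟩ ⟨_, y, hy, rfl⟩
      apply Subtype.ext
      change QuotientGroup.mk' ⁅M, M⁆ x * QuotientGroup.mk' ⁅M, M⁆ y =
        QuotientGroup.mk' ⁅M, M⁆ y * QuotientGroup.mk' ⁅M, M⁆ x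
      apply commutatorElement_eq_one_iff_mul_comm.mp
      rw [← map_commutatorElement]
      exact (QuotientGroup.eq_one_iff _).mpr (Subgroup.commutator_mem_commutator hx hy))
  rw [← Set.image_singleton, ← Subgroup.map_normalClosure _ _ hs, ← g3It_map,
    Subgroup.map_eq_bot_iff, QuotientGroup.ker_mk', ← hA, hM, g3It_lcs] at key
  have h1 : A.lowerCentralSeries (c + c) ≤ A.lowerCentralSeries (c + c + 1) :=
    key.trans (g3_lcs_comm A c c)
  have h2 : ∀ k, A.lowerCentralSeries (c + c + k) ≤ A.lowerCentralSeries (c + c + k + 1) := by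
    intro k
    induction k with
    | zero => exact h1
    | succ k ih => exact Subgroup.commutator_mono ih le_rfl
  have h3 : ∀ k, A.lowerCentralSeries (c + c) ≤ A.lowerCentralSeries (c + c + k) := by
    intro k
    induction k with
    | zero => exact le_rfl
    | succ k ih => exact ih.trans (h2 k)
  obtain ⟨m, hm⟩ := (Subgroup.isNilpotent_iff_lowerCentralSeries A).mp inferInstance
  rw [eq_bot_iff, two_mul, ← hm]
  exact (h3 m).trans (A.lowerCentralSeries_antitone (Nat.le_add_left m (c + c)))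

/-- a finitely generated nilpotent group whose centre is a `q`-group is a `q`-group -/
theorem g3_torsion (q : ℕ) (G : Type) [Group G] [Group.IsNilpotent G] :
    ∀ T : Set G, T.Finite → Subgroup.closure T = ⊤ →
      (∀ z ∈ Subgroup.center G, ∃ s : ℕ, z ^ (q ^ s) = 1) → ∀ x : G, ∃ s : ℕ, x ^ (q ^ s) = 1 := by
  refine Group.nilpotent_center_quotient_ind
    (P := fun G _ _ => ∀ T : Set G, T.Finite → Subgroup.closure T = ⊤ →
      (∀ z ∈ Subgroup.center G, ∃ s : ℕ, z ^ (q ^ s) = 1) → ∀ x : G, ∃ s : ℕ, x ^ (q ^ s) = 1)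
    G ?_ ?_
  · intro G _ _ T _ _ _ x
    exact ⟨0, Subsingleton.elim _ _⟩
  · intro G _ _ ih T hf hT cen x
    have hs := QuotientGroup.mk'_surjective (Subgroup.center G)
    obtain ⟨s, hs'⟩ := ih (QuotientGroup.mk' _ '' T) (hf.image _)
      (by rw [← MonoidHom.map_closure, hT, Subgroup.map_top_of_surjective _ hs])
      (by
        intro z hz
        obtain ⟨y, rfl⟩ := hs z
        have k1 : ∀ t : G, A.cm y t ∈ Subgroup.center G := by
          intro t
          have : Commute (QuotientGroup.mk' (Subgroup.center G) y) (QuotientGroup.mk' _ t) :=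
            (Subgroup.mem_center_iff.1 hz _).symm
          rw [← A.cm_eq_one, ← A.map_cm] at this
          exact (QuotientGroup.eq_one_iff _).1 this
        choose e he using fun t => cen _ (k1 t)
        obtain ⟨N, hN⟩ := (hf.image e).bddAbove
        have c1 : ∀ t ∈ T, Commute (y ^ q ^ N) t := by
          intro t ht
          obtain ⟨k, hk⟩ := Nat.exists_eq_add_of_le (hN ⟨t, ht, rfl⟩)
          rw [← A.cm_eq_one, A.cm_pow_left (Subgroup.mem_center_iff.1 (k1 t) _).symm, hk, pow_add,
            pow_mul, he, one_pow]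
        have c2 : y ^ q ^ N ∈ Subgroup.center G := by
          rw [Subgroup.mem_center_iff]
          intro g
          have hle : Subgroup.closure T ≤ Subgroup.centralizer {y ^ q ^ N} := by
            rw [Subgroup.closure_le]
            intro t ht
            exact Subgroup.mem_centralizer_singleton_iff.mpr (c1 t ht).symm.eq
          exact Subgroup.mem_centralizer_singleton_iff.mp (hle (by rw [hT]; trivial))
        obtain ⟨r, hr⟩ := cen _ c2
        exact ⟨N + r, by rw [← map_pow, pow_add, pow_mul, hr, map_one]⟩)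
      (QuotientGroup.mk' _ x)
    rw [← map_pow] at hs'
    obtain ⟨t, ht⟩ := cen _ ((QuotientGroup.eq_one_iff _).1 hs')
    exact ⟨s + t, by rw [pow_add, pow_mul, ht]⟩

/-- the centre of a monolithic nilpotent group is a `p`-group -/
theorem g3_mono {G : Type} [Group G] [Group.IsNilpotent G] {g : G} (hg : g ≠ 1)
    (h : ∀ N : Subgroup G, N.Normal → N ≠ ⊥ → g ∈ N) :
    ∃ p : ℕ, p.Prime ∧ ∀ z ∈ Subgroup.center G, ∃ s : ℕ, z ^ (p ^ s) = 1 := by
  haveI : Nontrivial G := ⟨⟨g, 1, hg⟩⟩
  have hz : ∀ z ∈ Subgroup.center G, z ≠ 1 → g ∈ Subgroup.zpowers z := by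
    intro z hz h1
    refine h _ ⟨?_⟩ (by rwa [Ne, Subgroup.zpowers_eq_bot])
    intro n hn x
    have : n ∈ Subgroup.center G := (Subgroup.zpowers_le.mpr hz) hn
    rw [Subgroup.mem_center_iff.1 this x]
    simpa using hn
  have hgc : g ∈ Subgroup.center G := h _ inferInstance (Group.IsNilpotent.center_ne_bot G)
  have hfin : IsOfFinOrder g := by
    by_cases h2 : g ^ 2 = 1
    · exact isOfFinOrder_iff_pow_eq_one.mpr ⟨2, by norm_num, h2⟩
    · obtain ⟨k, hk⟩ := Subgroup.mem_zpowers_iff.mp (hz _ (pow_mem hgc 2) h2)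
      refine isOfFinOrder_iff_zpow_eq_one.mpr ⟨2 * k - 1, by omega, ?_⟩
      rw [zpow_sub, zpow_mul, zpow_one]
      rw [show g ^ (2 : ℤ) = g ^ 2 from zpow_natCast g 2, hk, mul_inv_cancel]
  have hn1 : orderOf g ≠ 1 := by rwa [Ne, orderOf_eq_one_iff]
  refine ⟨(orderOf g).minFac, Nat.minFac_prime hn1, fun z hzc => ?_⟩
  by_cases h1 : z = 1
  · exact ⟨0, by simp [h1]⟩
  obtain ⟨m, hm⟩ := Subgroup.mem_zpowers_iff.mp (hz z hzc h1)
  have hm0 : m ≠ 0 := by
    rintro rfl
    exact hg (by simpa using hm.symm)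
  have hzf : IsOfFinOrder z := by
    refine isOfFinOrder_iff_zpow_eq_one.mpr ⟨m * orderOf g, ?_, ?_⟩
    · exact mul_ne_zero hm0 (by exact_mod_cast hfin.orderOf_pos.ne')
    · rw [zpow_mul, hm, zpow_natCast, pow_orderOf_eq_one]
  have hN := hzf.orderOf_pos
  refine ⟨(orderOf z).primeFactorsList.length, ?_⟩
  rw [← Nat.eq_prime_pow_of_unique_prime_dvd hN.ne', pow_orderOf_eq_one]
  intro q hq hd
  obtain ⟨k, hk⟩ := hd
  have hk0 : 0 < k := Nat.pos_of_ne_zero (by rintro rfl; omega)
  have hlt : k < orderOf z := by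
    rw [hk]
    exact lt_mul_of_one_lt_left hk0 hq.one_lt
  obtain ⟨j, hj⟩ := Subgroup.mem_zpowers_iff.mp
    (hz _ (pow_mem hzc k) (pow_ne_one_of_lt_orderOf hk0.ne' hlt))
  have : g ^ q = 1 := by
    rw [← hj, ← zpow_natCast, ← zpow_mul, mul_comm, zpow_mul, zpow_natCast, ← pow_mul, mul_comm,
      ← hk, pow_orderOf_eq_one, one_zpow]
  have hdv := orderOf_dvd_of_pow_eq_one this
  rcases (Nat.dvd_prime hq).mp hdv with e | e
  · exact absurd e hn1
  · rw [e, hq.minFac_eq]

theorem e3_of {c : ℕ} (h : E2 c) : E3 (2 * c + 2) := by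
  intro H _ T a ha hf hT hn hre
  rw [eq_bot_iff]
  intro g hg
  rw [Subgroup.mem_bot]
  by_contra hg1
  obtain ⟨K, -, hK⟩ := zorn_le_nonempty₀ {K : Subgroup H | K.Normal ∧ g ∉ K}
    (fun C hC hch y hy => by
      have hd := hch.directedOn
      refine ⟨sSup C, ⟨⟨fun n hn x => ?_⟩, fun hm => ?_⟩, fun _ => le_sSup⟩
      · obtain ⟨S, hS, hnS⟩ := (Subgroup.mem_sSup_of_directedOn ⟨y, hy⟩ hd).mp hn
        exact (Subgroup.mem_sSup_of_directedOn ⟨y, hy⟩ hd).mpr
          ⟨S, hS, (hC hS).1.conj_mem n hnS x⟩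
      · obtain ⟨S, hS, hnS⟩ := (Subgroup.mem_sSup_of_directedOn ⟨y, hy⟩ hd).mp hm
        exact (hC hS).2 hnS) ⊥ ⟨inferInstance, by rwa [Subgroup.mem_bot]⟩
  haveI : K.Normal := hK.prop.1
  have hs := QuotientGroup.mk'_surjective K
  have hg' : QuotientGroup.mk' K g ≠ 1 := fun e => hK.prop.2 ((QuotientGroup.eq_one_iff _).mp e)
  obtain ⟨p, hp, hz⟩ := g3_mono hg' (by
    intro N hN hne
    by_contra hgN
    apply hne
    have hle : K ≤ N.comap (QuotientGroup.mk' K) := by
      intro x hx
      have : QuotientGroup.mk' K x = 1 := (QuotientGroup.eq_one_iff _).mpr hx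
      rw [Subgroup.mem_comap, this]
      exact one_mem _
    have hge := hK.le_of_ge (y := N.comap (QuotientGroup.mk' K)) ⟨hN.comap _, hgN⟩ hle
    rw [eq_bot_iff]
    intro y hy
    obtain ⟨x, rfl⟩ := hs y
    exact Subgroup.mem_bot.mpr ((QuotientGroup.eq_one_iff _).mpr (hge hy)))
  have hT' : Subgroup.closure (QuotientGroup.mk' K '' T) = ⊤ := by
    rw [← MonoidHom.map_closure, hT, Subgroup.map_top_of_surjective _ hs]
  have key := g3_pgroup h (H := H ⧸ K) (T := QuotientGroup.mk' K '' T)
    (a := QuotientGroup.mk' K a) ⟨a, ha, rfl⟩ hT'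
    (by rintro _ ⟨t, ht, rfl⟩; exact g3_re_map hs (hre t ht)) hp
    (g3_torsion p _ _ (hf.image _) hT' hz)
  rw [← Set.image_singleton, ← Subgroup.map_normalClosure _ _ hs,
    ← Subgroup.map_lowerCentralSeries, Subgroup.map_eq_bot_iff, QuotientGroup.ker_mk'] at key
  exact hK.prop.2 (key (Subgroup.lowerCentralSeries_antitone _ (Nat.le_add_right _ 2) hg))

end Pool.Agent.P.MP_9682d1_al.E
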