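import Pool.Agent.P.MP_9682d1_al.E.Defs

set_option autoImplicit false

namespace Pool.Agent.P.MP_9682d1_al.E

open Pool.Agent.P.MP_9682d1_al.C

namespace SymA

/-- a filtration of a ring -/
structure Fil {R : Type} [Ring R] (F : ℕ → R → Prop) : Prop where
  zero : ∀ n, F n 0
  one : F 0 1
  add : ∀ {n : ℕ} {r s : R}, F n r → F n s → F n (r + s)
  neg : ∀ {n : ℕ} {r : R}, F n r → F n (-r)
  mono : ∀ {n m : ℕ} {r : R}, m ≤ n → F n r → F m r
  mul : ∀ {n m k : ℕ} {r s : R}, F n r → F m s → k ≤ n + m → F k (r * s)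

/-- symbols with values in a type with three operations -/
structure GS {R α : Type} [Ring R] [Add α] [Neg α] [Mul α] (F : ℕ → R → Prop) (σ : ℕ → R → α) :
    Prop extends Fil F where
  sadd : ∀ {n : ℕ} {r s : R}, F n r → F n s → σ n (r + s) = σ n r + σ n s
  sneg : ∀ {n : ℕ} {r : R}, F n r → σ n (-r) = -σ n r
  smul : ∀ {n m k : ℕ} {r s : R}, F n r → F m s → k = n + m → σ k (r * s) = σ n r * σ m s
  hi : ∀ {n : ℕ} {r s : R}, F n s → F (n + 1) (r - s) → σ n r = σ n s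

section ring
variable {R : Type} [Ring R] {F : ℕ → R → Prop}

theorem Fil.sub (h : Fil F) {n : ℕ} {r s : R} (a : F n r) (b : F n s) : F n (r - s) := by
  rw [sub_eq_add_neg]; exact h.add a (h.neg b)

theorem Fil.of (h : Fil F) {n : ℕ} {r : R} (a : F n (r - 1)) : F 0 r := by
  simpa using h.add (h.mono (Nat.zero_le _) a) h.one

def Dl (yi y r : R) : R := yi * r * y + -r

def P4 (yi y r : R) : R :=
  (((r + Dl yi y r) * (y - 1) + (Dl yi y r + Dl yi y (Dl yi y r))) * (y - 1) +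
    (Dl yi y (Dl yi y r) + Dl yi y (Dl yi y (Dl yi y r)))) * (y - 1) +
    (Dl yi y (Dl yi y (Dl yi y r)) + Dl yi y (Dl yi y (Dl yi y (Dl yi y r))))

theorem dl_eq {yi y : R} (e : yi * y = 1) (r : R) :
    Dl yi y r = yi * (r * (y - 1) + -((y - 1) * r)) := by
  have : yi * (y * r) = r := by rw [← mul_assoc, e, one_mul]
  simp only [Dl, mul_add, mul_sub, sub_mul, mul_neg, mul_one, one_mul, this, mul_assoc]
  abel

theorem Fil.dl (h : Fil F) {yi y r : R} {e m : ℕ} (e1 : yi * y = 1) (hi : F 0 yi)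
    (hy : F e (y - 1)) (hr : F m r) : F (m + e) (Dl yi y r) := by
  rw [dl_eq e1]
  exact h.mul hi (h.add (h.mul hr hy le_rfl) (h.neg (h.mul hy hr (by omega)))) (by omega)

theorem Fil.inv (h : Fil F) {yi y : R} {e : ℕ} (e1 : yi * y = 1) (hi : F 0 yi)
    (hy : F e (y - 1)) : F e (yi - 1) := by
  have : yi - 1 = -(yi * (y - 1)) := by rw [mul_sub, e1]; simp
  rw [this]
  exact h.neg (h.mul hi hy (by omega))

/-- the state of the commutator -/
structure St (F : ℕ → R → Prop) (m : ℕ) (c : Rˣ) (r : R) : Prop where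
  pos : 1 ≤ m
  wt : F m ((c : R) - 1)
  inv : F 0 (c⁻¹ : Rˣ)
  ap : F (m + 1) ((c : R) - 1 - r)

theorem St.step (h : Fil F) {m e : ℕ} {c y : Rˣ} {r : R} (s : St F m c r) (hi : F 0 (y⁻¹ : Rˣ))
    (hy : F e ((y : R) - 1)) : St F (m + e) (cm c y) (Dl (y⁻¹ : Rˣ) y r) := by
  have e1 : ((cm c y : Rˣ) : R) - 1 = (c⁻¹ : Rˣ) * Dl ((y⁻¹ : Rˣ) : R) y ((c : R) - 1) := by
    simp [cm, Dl, mul_sub, sub_mul, mul_add]
  have d1 := h.dl y.inv_mul hi hy s.wt
  refine ⟨s.pos.trans (Nat.le_add_right _ _), e1 ▸ h.mul s.inv d1 (by omega), ?_, ?_⟩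
  · rw [cm_inv, cm, Units.val_mul, Units.val_mul, Units.val_mul]
    exact h.mul hi (h.mul (h.mul s.inv (h.of hy) le_rfl) (h.of s.wt) le_rfl) le_rfl
  · have : ((cm c y : Rˣ) : R) - 1 - Dl ((y⁻¹ : Rˣ) : R) y r =
        ((c⁻¹ : Rˣ) - 1) * Dl ((y⁻¹ : Rˣ) : R) y ((c : R) - 1) +
          Dl ((y⁻¹ : Rˣ) : R) y ((c : R) - 1 - r) := by
      rw [e1]
      simp only [Dl]
      noncomm_ring
    rw [this]
    have := s.pos
    exact h.add (h.mul (h.inv c.inv_mul s.inv s.wt) d1 (by omega))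
      (h.mono (by omega) (h.dl y.inv_mul hi hy s.ap))

theorem St.first (h : Fil F) {m m' : ℕ} {c c' : Rˣ} {r r' : R} (s : St F m c r) (s' : St F m' c' r')
    (hm : m ≤ m') : F m (1 - (c : R) * c') ∧ F (m + 1) (1 - (c : R) * c' + (r + r')) := by
  have := s.pos
  have k : F (m + 1) (((c : R) - 1) * (c' - 1)) := h.mul s.wt s'.wt (by omega)
  constructor
  · rw [show 1 - (c : R) * c' = -((c - 1) + (c' - 1) + (c - 1) * (c' - 1)) by noncomm_ring]
    exact h.neg (h.add (h.add s.wt (h.mono hm s'.wt)) (h.mono (by omega) k))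
  · rw [show 1 - (c : R) * c' + (r + r') = -((c - 1 - r) + (c' - 1 - r') + (c - 1) * (c' - 1)) by
      noncomm_ring]
    exact h.neg (h.add (h.add s.ap (h.mono (by omega) s'.ap)) k)

theorem St.next (h : Fil F) {j e : ℕ} {c c' : Rˣ} {r r' y v p : R} (s : St F (j + e) c r)
    (s' : St F (j + e + e) c' r') (hy : F e (y - 1)) (hv : F j v ∧ F (j + 1) (v + p)) :
    F (j + e) (1 - (c : R) * c' + v * (y - c')) ∧
      F (j + e + 1) (1 - (c : R) * c' + v * (y - c') + (p * (y - 1) + (r + r'))) := by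
  obtain ⟨a, b⟩ := s.first h s' (by omega)
  have := s.pos
  have k : F (j + e + 1) (v * (c' - 1)) := h.mul hv.1 s'.wt (by omega)
  constructor
  · rw [show v * (y - c') = v * (y - 1) - v * (c' - 1) by noncomm_ring]
    exact h.add a (h.sub (h.mul hv.1 hy le_rfl) (h.mono (by omega) k))
  · rw [show 1 - (c : R) * c' + v * (y - c') + (p * (y - 1) + (r + r')) =
      1 - (c : R) * c' + (r + r') + ((v + p) * (y - 1) - v * (c' - 1)) by noncomm_ring]
    exact h.add b (h.sub (h.mul hv.2 hy (by omega)) k)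

theorem Fil.key (h : Fil F) {n e : ℕ} {u y : Rˣ} (hn : 1 ≤ n) (hu : F n ((u : R) - 1))
    (hui : F 0 (u⁻¹ : Rˣ)) (hi : F 0 (y⁻¹ : Rˣ)) (hy : F e ((y : R) - 1)) (h0 : Phi u y = 0) :
    F (n + e + e + e + 1) (P4 ((y⁻¹ : Rˣ) : R) y ((u : R) - 1)) := by
  have s0 : St F n u ((u : R) - 1) := ⟨hn, hu, hui, by simpa using h.zero _⟩
  have s1 := s0.step h hi hy
  have s2 := s1.step h hi hy
  have s3 := s2.step h hi hy
  have s4 := s3.step h hi hy
  have k := (s3.next h s4 hy (s2.next h s3 hy (s1.next h s2 hy (s0.first h s1 (by omega))))).2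
  simp only [Phi, phiStep, Function.iterate_succ, Function.iterate_zero, Function.comp_apply, id,
    zero_mul, add_zero] at h0
  rwa [h0, zero_add] at k

theorem map_Phi {B : Type} [Ring B] (φ : B →+* R) (u y : Bˣ) :
    φ (Phi u y) = Phi (Units.map φ.toMonoidHom u) (Units.map φ.toMonoidHom y) := by
  simp only [Phi, phiStep, Function.iterate_succ, Function.iterate_zero, Function.comp_apply, id,
    ← map_cm, Units.coe_map, RingHom.toMonoidHom_eq_coe, MonoidHom.coe_coe, map_add, map_mul,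
    map_sub, map_one, map_zero]

variable {α : Type} [Add α] [Neg α] [Mul α] {σ : ℕ → R → α}

theorem GS.dl0 (h : GS F σ) {yi y r : R} {m : ℕ} (hi : F 0 yi) (hy : F 0 y) (hr : F m r) :
    σ m (Dl yi y r) = σ 0 yi * σ m r * σ 0 y + -σ m r := by
  have a : F m (yi * r) := h.mul hi hr (by omega)
  rw [Dl, h.sadd (h.mul a hy (by omega)) (h.neg hr), h.sneg hr, h.smul a hy (add_zero _).symm,
    h.smul hi hr (zero_add _).symm]

theorem GS.dl1 (h : GS F σ) {yi y r : R} {m e : ℕ} (e1 : yi * y = 1) (he : 1 ≤ e) (hi : F 0 yi)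
    (hy : F e (y - 1)) (hr : F m r) :
    σ (m + e) (Dl yi y r) = σ m r * σ e (y - 1) + -(σ e (y - 1) * σ m r) := by
  have a : F (m + e) (r * (y - 1)) := h.mul hr hy le_rfl
  have b : F (m + e) ((y - 1) * r) := h.mul hy hr (by omega)
  have c := h.add a (h.neg b)
  rw [h.hi c, h.sadd a (h.neg b), h.sneg b, h.smul hr hy rfl, h.smul hy hr (add_comm _ _)]
  rw [dl_eq e1, ← sub_one_mul]
  exact h.mul (h.inv e1 hi hy) c (by omega)

end ring

section cube
variable {A : Type} [Ring A]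

def fc (b : Bool) (f : List Bool → A) : List Bool → A := fun l => f (b :: l)

def df (f : List Bool → A) : List Bool → A := fc true f - fc false f

theorem df_add (f g : List Bool → A) : df (f + g) = df f + df g := by
  funext l; simp only [df, fc, Pi.add_apply, Pi.sub_apply]; abel

theorem df_neg (f : List Bool → A) : df (-f) = -df f := by
  funext l; simp only [df, fc, Pi.neg_apply, Pi.sub_apply]; abel

theorem df_sub (f g : List Bool → A) : df (f - g) = df f - df g := by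
  funext l; simp only [df, fc, Pi.sub_apply]; abel

theorem df_mul (f g : List Bool → A) :
    df (f * g) = fc false f * df g + df f * fc false g + df f * df g := by
  funext l; simp only [df, fc, Pi.add_apply, Pi.sub_apply, Pi.mul_apply]; noncomm_ring

/-- constant functions -/
def K (a : A) : List Bool → A := fun _ => a

theorem df_K (a : A) : df (K a) = K 0 := by funext l; simp [df, fc, K]

theorem df_Kl (a : A) (f : List Bool → A) : df (K a * f) = K a * df f := by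
  funext l; simp [df, fc, K, mul_sub]

theorem df_Kr (a : A) (f : List Bool → A) : df (f * K a) = df f * K a := by
  funext l; simp [df, fc, K, sub_mul]

/-- the filtration on functions on a cube -/
def Ad (F : ℕ → A → Prop) : List ℕ → ℕ → (List Bool → A) → Prop
  | [], n, f => F n (f [])
  | w :: ws, n, f => Ad F ws n (fc false f) ∧ Ad F ws (n + w) (df f)

/-- the full difference -/
def De : List ℕ → (List Bool → A) → A
  | [], f => f []
  | _ :: ws, f => De ws (df f)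

variable {F : ℕ → A → Prop}

theorem ad_K (h : Fil F) (ws : List ℕ) : ∀ {n : ℕ} {a : A}, F n a → Ad F ws n (K a) := by
  induction ws with
  | nil => exact fun h => h
  | cons w ws ih => exact fun ha => ⟨ih ha, by rw [df_K]; exact ih (h.zero _)⟩

theorem fil_ad (h : Fil F) (ws : List ℕ) : Fil (Ad F ws) := by
  induction ws with
  | nil => exact ⟨h.zero, h.one, h.add, h.neg, h.mono, h.mul⟩
  | cons w ws ih =>
    refine ⟨fun n => ad_K h _ (h.zero n), ad_K h _ h.one, fun a b => ⟨ih.add a.1 b.1, ?_⟩,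
      fun a => ⟨ih.neg a.1, ?_⟩, fun e a => ⟨ih.mono e a.1, ih.mono (by omega) a.2⟩,
      fun a b e => ⟨ih.mul a.1 b.1 e, ?_⟩⟩
    · rw [df_add]; exact ih.add a.2 b.2
    · rw [df_neg]; exact ih.neg a.2
    · rw [df_mul]
      exact ih.add (ih.add (ih.mul a.1 b.2 (by omega)) (ih.mul a.2 b.1 (by omega)))
        (ih.mul a.2 b.2 (by omega))

theorem ad_inv (h : Fil F) (ws : List ℕ) : ∀ {c ci : List Bool → A}, c * ci = 1 → ci * c = 1 →
    (∀ l, F 0 (ci l)) → Ad F ws 0 c → Ad F ws 0 ci := by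
  induction ws with
  | nil => exact fun _ _ h _ => h _
  | cons w ws ih =>
    intro c ci e1 e2 h0 hc
    have f := fil_ad h ws
    have a : ∀ b, Ad F ws 0 (fc b c) → Ad F ws 0 (fc b ci) := fun b =>
      ih (congrArg (fc b) e1) (congrArg (fc b) e2) fun l => h0 _
    have a0 := a false hc.1
    have a1 := a true (by simpa [df] using f.add hc.1 (f.mono (Nat.zero_le _) hc.2))
    refine ⟨a0, ?_⟩
    have : df ci = -(fc true ci * df c * fc false ci) := by
      have b1 : fc true ci * fc true c = 1 := congrArg (fc true) e2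
      have b0 : fc false c * fc false ci = 1 := congrArg (fc false) e1
      rw [df, df, mul_sub, b1, sub_mul, mul_assoc, b0]
      simp
    rw [this]
    exact f.neg (f.mul (f.mul a1 hc.2 le_rfl) a0 (by omega))

theorem de_wt (ws : List ℕ) : ∀ {n : ℕ} {f : List Bool → A}, Ad F ws n f →
    F (n + ws.sum) (De ws f) := by
  induction ws with
  | nil => exact fun h => h
  | cons w ws ih => exact fun h => by rw [List.sum_cons, ← add_assoc]; exact ih h.2

theorem de_lin (ws : List ℕ) : (∀ f g : List Bool → A, De ws (f + g) = De ws f + De ws g) ∧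
    (∀ f : List Bool → A, De ws (-f) = -De ws f) ∧
    (∀ (a : A) f, De ws (K a * f) = a * De ws f) ∧ ∀ (a : A) f, De ws (f * K a) = De ws f * a := by
  induction ws with
  | nil => exact ⟨fun _ _ => rfl, fun _ => rfl, fun _ _ => rfl, fun _ _ => rfl⟩
  | cons w ws ih => simp [De, df_add, df_neg, df_Kl, df_Kr, ih]

theorem de_dl (ws : List ℕ) (yi y : A) (f : List Bool → A) :
    De ws (Dl (K yi) (K y) f) = Dl yi y (De ws f) := by
  simp only [Dl, de_lin ws]

theorem de_p4 (ws : List ℕ) (yi y : A) (f : List Bool → A) :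
    De ws (P4 (K yi) (K y) f) = P4 yi y (De ws f) := by
  have : K y - 1 = K (y - 1) := rfl
  simp only [P4, this, de_lin ws, de_dl]

theorem ad_map {B : Type} [Ring B] {G : ℕ → B → Prop} (φ : A →+* B)
    (hφ : ∀ n a, F n a → G n (φ a)) (ws : List ℕ) : ∀ {n : ℕ} {f : List Bool → A},
    (Ad F ws n f → Ad G ws n (φ ∘ f)) ∧ De ws (φ ∘ f) = φ (De ws f) := by
  induction ws with
  | nil => exact ⟨hφ _ _, rfl⟩
  | cons w ws ih =>
    intro n f
    have e : df (φ ∘ f) = φ ∘ df f := by funext l; simp [df, fc]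
    exact ⟨fun h => ⟨ih.1 h.1, by rw [e]; exact ih.1 h.2⟩, by rw [De, e]; exact (ih (n := 0)).2⟩

variable {S : Type} [Ring S]

instance : Add (Tr S) := ⟨Tr.add⟩
instance : Mul (Tr S) := ⟨Tr.mul⟩
instance : Neg (Tr S) := ⟨Tr.map fun a => -a⟩

/-- the symbol of a function on a cube -/
def Sy (σ : ℕ → A → S) : List ℕ → ℕ → (List Bool → A) → Tr S
  | [], n, f => .lf (σ n (f []))
  | w :: ws, n, f => .nd (Sy σ ws n (fc false f)) (Sy σ ws (n + w) (df f))

variable {σ : ℕ → A → S}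

theorem gs_ad (h : GS F σ) (ws : List ℕ) (hw : ∀ w ∈ ws, 1 ≤ w) : GS (Ad F ws) (Sy σ ws) := by
  induction ws with
  | nil =>
    exact ⟨fil_ad h.toFil _, fun a b => congrArg Tr.lf (h.sadd a b),
      fun a => congrArg Tr.lf (h.sneg a), fun a b e => congrArg Tr.lf (h.smul a b e),
      fun a b => congrArg Tr.lf (h.hi a b)⟩
  | cons w ws ih =>
    have ih := ih fun w h => hw w (List.mem_cons_of_mem _ h)
    have h1 := hw w List.mem_cons_self
    refine ⟨fil_ad h.toFil _, fun a b => congrArg₂ Tr.nd (ih.sadd a.1 b.1) ?_,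
      fun a => congrArg₂ Tr.nd (ih.sneg a.1) ?_,
      fun {n m k r s} a b e => congrArg₂ Tr.nd (ih.smul a.1 b.1 e) ?_,
      fun a b => congrArg₂ Tr.nd (ih.hi a.1 b.1) (ih.hi a.2 ?_)⟩
    · rw [df_add]; exact ih.sadd a.2 b.2
    · rw [df_neg]; exact ih.sneg a.2
    · have p : Ad F ws (k + w) (fc false r * df s) := ih.mul a.1 b.2 (by omega)
      have q : Ad F ws (k + w) (df r * fc false s) := ih.mul a.2 b.1 (by omega)
      rw [ih.hi (ih.add p q), ih.sadd p q, ih.smul a.1 b.2 (by omega), ih.smul a.2 b.1 (by omega)]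
      · rfl
      · rw [df_mul, add_sub_cancel_left]
        exact ih.mul a.2 b.2 (by omega)
    · rw [← df_sub]; exact ih.mono (by omega) b.2

theorem GS.zero' (h : GS F σ) (n : ℕ) : σ n 0 = 0 := by
  simpa using h.sadd (h.zero n) (h.zero n)

theorem sy_K (h : GS F σ) (ws : List ℕ) : ∀ (n : ℕ) (a : A),
    Sy σ ws n (K a) = Tr.cst (σ n a) ws.length := by
  induction ws with
  | nil => exact fun _ _ => rfl
  | cons w ws ih =>
    exact fun n a => congrArg₂ Tr.nd (ih n a) (by rw [df_K, ih, h.zero'])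

theorem top_cst (m : ℕ) : (Tr.cst (0 : S) m).top = 0 := by
  induction m with
  | zero => rfl
  | succ m ih => exact ih

theorem top_hi (h : GS F σ) {ws : List ℕ} (hw : ∀ w ∈ ws, 1 ≤ w) {n : ℕ} {f : List Bool → A}
    (hf : Ad F ws (n + 1) f) : (Sy σ ws n f).top = 0 := by
  rw [(gs_ad h ws hw).hi (s := K 0) (ad_K h.toFil _ (h.zero _)) (by simpa [show K (0 : A) = 0 from rfl]),
    sy_K h, h.zero', top_cst]

theorem sy_Kl (h : GS F σ) {w : ℕ} {a : A} (ha : F w a) (ws : List ℕ) :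
    ∀ {n k : ℕ} {f : List Bool → A}, Ad F ws n f → k = w + n →
      Sy σ ws k (K a * f) = (Sy σ ws n f).map (fun s => σ w a * s) ∧
      Sy σ ws k (f * K a) = (Sy σ ws n f).map (fun s => s * σ w a) := by
  induction ws with
  | nil =>
    exact fun hf e => ⟨congrArg Tr.lf (h.smul ha hf e), congrArg Tr.lf (h.smul hf ha (by omega))⟩
  | cons v ws ih =>
    exact fun hf e => ⟨congrArg₂ Tr.nd (ih hf.1 e).1 (by rw [df_Kl]; exact (ih hf.2 (by omega)).1),
      congrArg₂ Tr.nd (ih hf.1 e).2 (by rw [df_Kr]; exact (ih hf.2 (by omega)).2)⟩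

theorem GS.fm {α : Type} [Add α] [Neg α] [Mul α] {σ : ℕ → A → α} (h : GS F σ) {yi y r : A} {m : ℕ}
    (e1 : yi * y = 1) (hi : F 0 yi) (hy : F 0 (y - 1)) (hr : F m r) :
    σ m (P4 yi y r) = (((σ m r + σ m (Dl yi y r)) * σ 0 (y - 1) +
      (σ m (Dl yi y r) + σ m (Dl yi y (Dl yi y r)))) * σ 0 (y - 1) +
      (σ m (Dl yi y (Dl yi y r)) + σ m (Dl yi y (Dl yi y (Dl yi y r))))) * σ 0 (y - 1) +
      (σ m (Dl yi y (Dl yi y (Dl yi y r))) + σ m (Dl yi y (Dl yi y (Dl yi y (Dl yi y r))))) := by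
  have d : ∀ {r}, F m r → F m (Dl yi y r) := fun hr => h.toFil.dl e1 hi hy hr
  have a : ∀ {r}, F m r → F m (r + Dl yi y r) := fun hr => h.add hr (d hr)
  have b : ∀ {p r}, F m p → F m r → F m (p * (y - 1) + (r + Dl yi y r)) ∧
      σ m (p * (y - 1) + (r + Dl yi y r)) =
        σ m p * σ 0 (y - 1) + (σ m r + σ m (Dl yi y r)) := fun hp hr =>
    ⟨h.add (h.mul hp hy le_rfl) (a hr), by
      rw [h.sadd (h.mul hp hy (by omega)) (a hr), h.smul hp hy (add_zero _).symm,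
        h.sadd hr (d hr)]⟩
  have b1 := b (a hr) (d hr)
  have b2 := b b1.1 (d (d hr))
  rw [P4, (b b2.1 (d (d (d hr)))).2, b2.2, b1.2, h.sadd hr (d hr)]

theorem GS.df {α : Type} [Add α] [Neg α] [Mul α] {σ : ℕ → A → α} (h : GS F σ) {yi y r : A}
    {m e : ℕ} (e1 : yi * y = 1) (he : 1 ≤ e) (hi : F 0 yi) (hy : F e (y - 1)) (hr : F m r) :
    σ (m + e + e + e) (P4 yi y r) = ((σ m r * σ e (y - 1) + σ (m + e) (Dl yi y r)) * σ e (y - 1) +
      σ (m + e + e) (Dl yi y (Dl yi y r))) * σ e (y - 1) +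
      σ (m + e + e + e) (Dl yi y (Dl yi y (Dl yi y r))) := by
  have d : ∀ {m r}, F m r → F (m + e) (Dl yi y r) := fun hr => h.toFil.dl e1 hi hy hr
  have a : ∀ {m r}, F m r → F m (r + Dl yi y r) ∧ σ m (r + Dl yi y r) = σ m r := fun hr =>
    ⟨h.add hr (h.mono (by omega) (d hr)), h.hi hr (by
      rw [add_sub_cancel_left]; exact h.mono (by omega) (d hr))⟩
  have b : ∀ {m p r}, F m p → F (m + e) r → F (m + e) (p * (y - 1) + (r + Dl yi y r)) ∧
      σ (m + e) (p * (y - 1) + (r + Dl yi y r)) = σ m p * σ e (y - 1) + σ (m + e) r := fun hp hr =>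
    ⟨h.add (h.mul hp hy le_rfl) (a hr).1, by
      rw [h.sadd (h.mul hp hy le_rfl) (a hr).1, h.smul hp hy rfl, (a hr).2]⟩
  have b1 := b (a hr).1 (d hr)
  have b2 := b b1.1 (d (d hr))
  rw [P4, (b b2.1 (d (d (d hr)))).2, b2.2, b1.2, (a hr).2]

end cube

section grp
variable {H R S : Type} [Group H] [Ring R] [Ring S] (ρ : H →* Rˣ) (T : Set H) (F : ℕ → R → Prop)
  (σ : ℕ → R → S)

/-- the values of a family of group elements -/
def V (c : List Bool → H) : List Bool → R := fun l => ρ (c l)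

def Letter (z : S) (w : ℕ) : Prop :=
  1 ≤ w ∧ (∃ h : H, F w ((ρ h : R) - 1) ∧ σ w ((ρ h : R) - 1) = z) ∧
    ∃ (ws : List ℕ) (n : ℕ) (U : List Bool → H), 1 ≤ n ∧ (∀ l, ∃ t ∈ T, ∃ k, U l = k⁻¹ * t * k) ∧
      Ad F ws n (V ρ U - 1) ∧ n + ws.sum = w ∧ σ w (De ws (V ρ U - 1)) = z

variable {ρ T F σ}

theorem inv_V (c : List Bool → H) : V ρ c⁻¹ * V ρ c = 1 := by funext l; simp [V]

theorem letter_gen {t : H} {w : ℕ} (ht : t ∈ T) (hw : 1 ≤ w) (h : F w ((ρ t : R) - 1)) :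
    Letter ρ T F σ (σ w ((ρ t : R) - 1)) w :=
  ⟨hw, ⟨t, h, rfl⟩, [], w, fun _ => t, hw, fun _ => ⟨t, ht, 1, by simp⟩, h, rfl, rfl⟩

theorem letter_br (h : GS F σ) (hu : ∀ g : H, F 0 (ρ g : R)) {z z' : S} {w w' : ℕ}
    (a : Letter ρ T F σ z w) (b : Letter ρ T F σ z' w') :
    Letter ρ T F σ (z * z' - z' * z) (w + w') := by
  obtain ⟨a1, ⟨g, a2, a3⟩, ws, n, U, a4, a5, a6, a7, a8⟩ := a
  obtain ⟨b1, ⟨k, b2, b3⟩, -⟩ := b
  have hi : ∀ g : H, F 0 ((ρ g)⁻¹ : Rˣ) := fun g => by simpa using hu g⁻¹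
  have s := St.step h.toFil (⟨a1, a2, hi g, by simpa using h.zero _⟩ : St F w (ρ g) ((ρ g : R) - 1))
    (hi k) b2
  have e : df (V ρ (fun l => if l.headD false then k⁻¹ * U l.tail * k else U l.tail) - 1) =
      Dl (K (((ρ k)⁻¹ : Rˣ) : R)) (K (ρ k : R)) (V ρ U - 1) := by
    funext l
    simp [df, fc, V, K, Dl, mul_sub, sub_mul]
  refine ⟨by omega, ⟨cm g k, by rw [map_cm]; exact s.wt, ?_⟩, w' :: ws, n,
    fun l => if l.headD false then k⁻¹ * U l.tail * k else U l.tail, a4, fun l => ?_, ⟨a6, ?_⟩,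
    by rw [List.sum_cons]; omega, ?_⟩
  · rw [map_cm, h.hi (h.toFil.dl (ρ k).inv_mul (hi k) b2 a2) s.ap,
      h.dl1 (ρ k).inv_mul b1 (hi k) b2 a2, a3, b3, sub_eq_add_neg]
  · obtain ⟨t, ht, j, e⟩ := a5 l.tail
    beta_reduce
    split_ifs
    · exact ⟨t, ht, j * k, by rw [e]; group⟩
    · exact ⟨t, ht, j, e⟩
  · rw [e]
    exact (fil_ad h.toFil ws).dl (congrArg K (ρ k).inv_mul) (ad_K h.toFil _ (hi k))
      (ad_K h.toFil _ b2) a6
  · rw [De, e, de_dl, h.dl1 (ρ k).inv_mul b1 (hi k) b2 (a7 ▸ de_wt ws a6), a8, b3, sub_eq_add_neg]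

theorem master (h : Fil F) (hu : ∀ g : H, F 0 (ρ g : R))
    (h0 : ∀ t ∈ T, ∀ g y : H, Phi (ρ (g⁻¹ * t * g)) (ρ y) = 0) {z : S} {w : ℕ}
    (a : Letter ρ T F σ z w) : ∃ r, F w r ∧ σ w r = z ∧ ∀ (vs : List ℕ) (e : ℕ) (y : List Bool → H),
      Ad F vs 0 (V ρ y⁻¹) → Ad F vs e (V ρ y - 1) →
      Ad F vs (w + e + e + e + 1) (P4 (V ρ y⁻¹) (V ρ y) (K r)) := by
  obtain ⟨-, -, ws, n, U, a4, a5, a6, a7, a8⟩ := a
  refine ⟨_, a7 ▸ de_wt ws a6, a8, fun vs e y hi hy => ?_⟩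
  let j : (List Bool → List Bool → H) →* (List Bool → List Bool → R) :=
    ⟨⟨fun c l => V ρ (c l), by funext l l'; simp [V]⟩, fun c d => by funext l l'; simp [V]⟩
  have f1 := fil_ad h vs
  have m := ad_map (F := F) (G := Ad F vs) (Pi.constRingHom (List Bool) R)
    (fun n a ha => ad_K h vs ha) ws (n := n)
    (f := V ρ U - 1)
  have hU : Ad (Ad F vs) ws n (j (fun l _ => U l) - 1) := m.1 a6
  have k := (fil_ad f1 ws).key (u := j.toHomUnits fun l _ => U l) (y := j.toHomUnits fun _ => y) a4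
    hU (ad_inv f1 ws (Units.mul_inv _) (Units.inv_mul _) (fun l => ad_K h vs (hu (U l)⁻¹))
      ((fil_ad f1 ws).of hU)) (ad_K f1 ws hi) (ad_K f1 ws hy) (by
      funext l l'
      obtain ⟨t, ht, g, e⟩ := a5 l
      have := map_Phi ((Pi.evalRingHom (fun _ => R) l').comp
        (Pi.evalRingHom (fun _ => List Bool → R) l)) (j.toHomUnits fun l _ => U l)
        (j.toHomUnits fun _ => y)
      refine this.trans (Eq.trans ?_ (h0 t ht g (y l')))
      rw [← e]
      congr 1 <;> exact Units.ext rfl)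
  have k2 := de_wt ws k
  have e2 := de_p4 ws (V ρ y⁻¹) (V ρ y) (j (fun l _ => U l) - 1)
  have e3 : De ws (j (fun l _ => U l) - 1) = K (De ws (V ρ U - 1)) := m.2
  rw [e3] at e2
  rw [← e2]
  exact f1.mono (by omega) k2

theorem exists_y (h : GS F σ) (hu : ∀ g : H, F 0 (ρ g : R)) (h1 : σ 0 1 = 1) (zs : List S)
    (hz : ∀ z ∈ zs, ∃ w, Letter ρ T F σ z w) : ∃ (ws : List ℕ) (y : List Bool → H),
      (∀ w ∈ ws, 1 ≤ w) ∧ ws.length = zs.length ∧ Ad F ws 0 (V ρ y) ∧ Ad F ws 0 (V ρ y⁻¹) ∧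
      Sy σ ws 0 (V ρ y) = yT zs ∧ Sy σ ws 0 (V ρ y⁻¹) = yI zs ∧
      Sy σ ws 0 (V ρ y - 1) = thT zs := by
  induction zs with
  | nil =>
    exact ⟨[], 1, by simp, rfl, hu _, hu _, congrArg Tr.lf (by simpa [V] using h1),
      congrArg Tr.lf (by simpa [V] using h1), congrArg Tr.lf (by simpa [V] using h.zero' 0)⟩
  | cons z zs ih =>
    obtain ⟨ws, y, a1, a2, a3, a4, a5, a6, a7⟩ := ih fun z h => hz z (List.mem_cons_of_mem _ h)
    obtain ⟨w, hw, ⟨g, b1, b2⟩, -⟩ := hz z List.mem_cons_self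
    have f := fil_ad h.toFil ws
    have hi : F 0 ((ρ g)⁻¹ : Rˣ) := by simpa using hu g⁻¹
    have b3 := h.toFil.inv (ρ g).inv_mul hi b1
    have b4 : σ w ((((ρ g)⁻¹ : Rˣ) : R) - 1) = -z := by
      rw [← b2, ← h.sneg b1]
      refine h.hi (h.neg b1) ?_
      have : (((ρ g)⁻¹ : Rˣ) : R) - 1 - -((ρ g : R) - 1) =
          -(((((ρ g)⁻¹ : Rˣ) : R) - 1) * ((ρ g : R) - 1)) := by
        simp only [mul_sub, sub_mul, Units.inv_mul, mul_one, one_mul]; abel
      rw [this]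
      exact h.neg (h.mul b3 b1 (by omega))
    let y' : List Bool → H := fun l => if l.headD false then g * y l.tail else y l.tail
    have e1 : df (V ρ y') = K ((ρ g : R) - 1) * V ρ y := by
      funext l; simp [df, fc, V, K, y', sub_mul]
    have e2 : df (V ρ y'⁻¹) = V ρ y⁻¹ * K ((((ρ g)⁻¹ : Rˣ) : R) - 1) := by
      funext l; simp [df, fc, V, K, y', mul_sub]
    have e3 : df (V ρ y' - 1) = df (V ρ y') := by
      funext l; simp [df, fc]
    have e4 : Sy σ ws (0 + w) (df (V ρ y')) = (yT zs).map fun a => z * a := by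
      rw [e1, (sy_Kl h b1 ws a3 (by omega)).1, a5, b2]
    refine ⟨w :: ws, y', List.forall_mem_cons.2 ⟨hw, a1⟩, congrArg (· + 1) a2,
      ⟨a3, e1 ▸ f.mul (ad_K h.toFil ws b1) a3 (by omega)⟩,
      ⟨a4, e2 ▸ f.mul a4 (ad_K h.toFil ws b3) le_rfl⟩, congrArg₂ Tr.nd a5 e4,
      congrArg₂ Tr.nd a6 ?_, congrArg₂ Tr.nd a7 (e3 ▸ e4)⟩
    rw [e2, (sy_Kl h b3 ws a4 (by omega)).2, a6, b4]
    simp only [mul_neg]

theorem df_top (h : GS F σ) (hu : ∀ g : H, F 0 (ρ g : R))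
    (h0 : ∀ t ∈ T, ∀ g y : H, Phi (ρ (g⁻¹ * t * g)) (ρ y) = 0) {z : S} {w : ℕ}
    (a : Letter ρ T F σ z w) {vs : List ℕ} (hv : ∀ v ∈ vs, 1 ≤ v) {e : ℕ} (he : 1 ≤ e)
    (y : List Bool → H) (hy : Ad F vs e (V ρ y - 1)) :
    (dfT (Tr.cst z vs.length) (Sy σ vs e (V ρ y - 1))).top = 0 := by
  obtain ⟨r, r1, r2, r3⟩ := master h.toFil hu h0 a
  have g := gs_ad h vs hv
  have hi : Ad F vs 0 (V ρ y⁻¹) := ad_inv h.toFil vs (by simpa using inv_V (ρ := ρ) y⁻¹) (inv_V y)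
    (fun l => hu _) (g.toFil.of hy)
  have k := top_hi h hv (r3 vs e y hi hy)
  have c0 := ad_K h.toFil vs r1
  have c1 := g.toFil.dl (inv_V y) hi hy c0
  have c2 := g.toFil.dl (inv_V y) hi hy c1
  rw [g.df (inv_V y) he hi hy c0, g.dl1 (inv_V y) he hi hy c2, g.dl1 (inv_V y) he hi hy c1,
    g.dl1 (inv_V y) he hi hy c0, sy_K h, r2] at k
  exact k

end grp

end SymA

open SymA in
theorem e2b : E2b := by
  intro H R S _ _ _ ρ T a W σ hW ha h0 hs
  have f : Fil (Fw ρ T a W) :=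
    ⟨.zero, by simpa using (Fw.unit 1 : Fw ρ T a W 0 _), .add, .neg, .mono, fun x y e => .mono e (.mul x y)⟩
  have h : GS (Fw ρ T a W) σ := ⟨f, hs.add, hs.neg, fun x y e => e ▸ hs.mul x y,
    fun {n r s} x y => by
      have := hs.add x (f.mono (Nat.le_succ n) y)
      rwa [hs.van y, add_zero, add_sub_cancel] at this⟩
  have hu : ∀ g : H, Fw ρ T a W 0 (ρ g : R) := .unit
  have br := fun {z z' w w'} => letter_br (T := T) h hu (z := z) (z' := z') (w := w) (w' := w')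
  refine ⟨{z | ∃ w, Letter ρ T (Fw ρ T a W) σ z w}, {z | ∃ w, Letter ρ T (Fw ρ T a W) σ z w},
    {z | ∃ w, W ≤ w ∧ Letter ρ T (Fw ρ T a W) σ z w}, {z | ∃ w, W < w ∧ Letter ρ T (Fw ρ T a W) σ z w},
    ⟨fun _ ⟨_, x⟩ _ ⟨_, y⟩ => ⟨_, br x y⟩, le_rfl, fun _ ⟨_, x⟩ => ⟨_, x.2⟩,
      fun _ ⟨_, x⟩ => ⟨_, x.1.le, x.2⟩, ⟨W, le_rfl, letter_gen ha hW .gena⟩,
      fun _ ⟨_, x⟩ _ ⟨_, y⟩ => ⟨_, br x y⟩,
      fun _ ⟨_, x⟩ _ ⟨_, y⟩ => ⟨_, by have := y.1; omega, br x.2 y⟩,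
      fun _ ⟨_, x⟩ _ ⟨_, y⟩ => ⟨_, by have := x.1; omega, br x y.2⟩,
      fun u ⟨w, x⟩ zs hz => ?_, fun u ⟨w, x⟩ => df_top h hu h0 x (vs := []) (by simp) hW
        (fun _ => a) .gena, fun u ⟨w, x⟩ z ⟨v, hv, _, ⟨g, b1, b2⟩, _⟩ => ?_⟩,
    fun t ht => ⟨1, letter_gen ht le_rfl (.gen ht)⟩⟩
  · obtain ⟨ws, y, a1, a2, a3, a4, a5, a6, a7⟩ := exists_y h hu hs.one zs hz
    obtain ⟨r, r1, r2, r3⟩ := master f hu h0 x
    have g := gs_ad h ws a1
    have hy := g.toFil.sub a3 g.one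
    have k := top_hi h a1 (r3 ws 0 y a4 hy)
    have c0 := ad_K f ws r1
    have c1 := g.toFil.dl (inv_V y) a4 hy c0
    have c2 := g.toFil.dl (inv_V y) a4 hy c1
    have c3 := g.toFil.dl (inv_V y) a4 hy c2
    simp only [add_zero] at k c1 c2 c3
    rw [g.fm (inv_V y) a4 hy c0, g.dl0 a4 a3 c3, g.dl0 a4 a3 c2, g.dl0 a4 a3 c1, g.dl0 a4 a3 c0,
      sy_K h, r2, a2, a5, a6, a7] at k
    exact k
  · let y : List Bool → H := fun l => if l.headD false then a * g else a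
    have e : df (V ρ y - 1) [] = (ρ a : R) * ((ρ g : R) - 1) := by simp [df, fc, V, y, mul_sub]
    have e' : W + (v - W) = v := by omega
    have k := df_top h hu h0 x (vs := [v - W]) (by simp; omega) hW y
      ⟨.gena, by rw [Ad, e, e']; exact f.mul (hu a) b1 (by omega)⟩
    rw [Sy, Sy, Sy, e, e', h.smul (hu a) b1 (zero_add _).symm, b2,
      h.hi f.one (.gen ha), hs.one, one_mul] at k
    exact k

end Pool.Agent.P.MP_9682d1_al.E
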