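import Pool.Agent.P.MP_9682d1_al.E.One
import Pool.Agent.P.MP_9682d1_al.E.Gr
import Pool.Agent.P.MP_9682d1_al.E.Sym
import Pool.Agent.P.MP_9682d1_al.E.Grp
import Pool.Agent.P.MP_9682d1_al.E.Baer

set_option autoImplicit false
set_option linter.dupNamespace false

namespace Pool.Agent.P.MP_9682d1_al.E

open Pool.Agent.P.MP_9682d1_al.C

/-- step E, unconditional -/
theorem e2 : E2 23 := e2_of (c := 23) e1 e2b

theorem e3 : E3 (2 * 23 + 2) := e3_of (c := 23) e2

/-- a right 4-Engel element of the Hirsch-Plotkin radical lies in the Baer radical -/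
theorem baer {G : Type} [Group G] {a : G} (ha : RE 4 a) (hp : a ∈ C.HP G) :
    a ∈ sSup {H : Subgroup G | IsCyclic H ∧ H.IsSubnormal} := baer_of (d := 2 * 23 + 2) e3 ha hp

theorem least_five' (hH : ∀ (G : Type) [Group G] (a : G), RE 4 a → a ∈ C.HP G) :
    IsLeast {m : ℕ | 0 < m ∧ ∃ (G : Type) (_ : Group G) (a : G),
      (∀ x : G, (fun c : G => c⁻¹ * (x⁻¹ * c * x))^[m] a = 1) ∧
        a ∉ sSup {H : Subgroup G | IsCyclic H ∧ H.IsSubnormal}} 5 := least_five (d := 2 * 23 + 2) e3 hH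

end Pool.Agent.P.MP_9682d1_al.E
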