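import Pool.Agent.P.MP_9682d1_al.C.Defs

set_option autoImplicit false

namespace Pool.Agent.P.MP_9682d1_al.E

open Pool.Agent.P.MP_9682d1_al.C

/-- polynomials in central variables of square zero, as binary trees (`nd l r = l + ε r`) -/
inductive Tr (α : Type) : Type
  | lf (a : α) : Tr α
  | nd (l r : Tr α) : Tr α

namespace Tr

variable {α : Type}

def map (f : α → α) : Tr α → Tr α
  | lf a => lf (f a)
  | nd l r => nd (map f l) (map f r)

def add [Add α] : Tr α → Tr α → Tr α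
  | lf a, lf b => lf (a + b)
  | nd l r, nd l' r' => nd (add l l') (add r r')
  | lf a, nd _ _ => lf a
  | nd l r, lf _ => nd l r

def mul [Add α] [Mul α] : Tr α → Tr α → Tr α
  | lf a, lf b => lf (a * b)
  | nd l r, nd l' r' => nd (mul l l') (add (mul l r') (mul r l'))
  | lf a, nd _ _ => lf a
  | nd l r, lf _ => nd l r

def sub [Add α] [Neg α] (s t : Tr α) : Tr α := add s (map (fun a => -a) t)

/-- coefficient of the product of all variables -/
def top : Tr α → α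
  | lf a => a
  | nd _ r => top r

/-- the constant `a` at depth `m` -/
def cst [Zero α] (a : α) : ℕ → Tr α
  | 0 => lf a
  | m + 1 => nd (cst a m) (cst 0 m)

end Tr

section forms

variable {α : Type} [Add α] [Neg α] [Mul α] [Zero α] [One α]

/-- `∏ (1 + ε_i z_i)` -/
def yT : List α → Tr α
  | [] => .lf 1
  | z :: zs => .nd (yT zs) ((yT zs).map fun a => z * a)

/-- the inverse of `yT` -/
def yI : List α → Tr α
  | [] => .lf 1
  | z :: zs => .nd (yI zs) ((yI zs).map fun a => -(a * z))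

/-- `yT - 1` -/
def thT : List α → Tr α
  | [] => .lf 0
  | z :: zs => .nd (thT zs) ((yT zs).map fun a => z * a)

/-- `r ↦ y⁻¹ r y - r` -/
def dl (yi y r : Tr α) : Tr α := ((yi.mul r).mul y).sub r

def fmAux (th c0 c1 c2 c3 c4 : Tr α) : Tr α :=
  ((((((c0.add c1).mul th).add (c1.add c2)).mul th).add (c2.add c3)).mul th).add (c3.add c4)

/-- the linearised operator identity for `c0`, as a tree -/
def fmT (yi y th c0 : Tr α) : Tr α :=
  fmAux th c0 (dl yi y c0) (dl yi y (dl yi y c0)) (dl yi y (dl yi y (dl yi y c0)))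
    (dl yi y (dl yi y (dl yi y (dl yi y c0))))

/-- multilinear part of the linearised operator identity -/
def Fm (u : α) (zs : List α) : α :=
  (fmT (yI zs) (yT zs) (thT zs) (Tr.cst u zs.length)).top

def brT (r th : Tr α) : Tr α := (r.mul th).sub (th.mul r)

/-- `u θ³ + [u,θ] θ² + [u,θ,θ] θ + [u,θ,θ,θ]` -/
def dfT (c0 th : Tr α) : Tr α :=
  (((((c0.mul th).add (brT c0 th)).mul th).add (brT (brT c0 th) th)).mul th).add
    (brT (brT (brT c0 th) th) th)

def D0 (x u : α) : α := (dfT (.lf u) (.lf x)).top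

def D1 (x u z : α) : α := (dfT (.nd (.lf u) (.lf 0)) (.nd (.lf x) (.lf z))).top

end forms

/-- Letters of a ring `S` and the identities they satisfy.  `L0` are the letters without `x`,
`L` all letters, `L1` those that contain `x`, `L2` those that contain `x` properly. -/
structure Ids (S : Type) [Ring S] (x : S) (L0 L L1 L2 : Set S) : Prop where
  br0 : ∀ y ∈ L0, ∀ z ∈ L0, y * z - z * y ∈ L0
  sub0 : L0 ⊆ L
  sub1 : L1 ⊆ L
  sub2 : L2 ⊆ L1
  memx : x ∈ L1
  br : ∀ y ∈ L, ∀ z ∈ L, y * z - z * y ∈ L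
  brl : ∀ y ∈ L1, ∀ z ∈ L, y * z - z * y ∈ L2
  brr : ∀ y ∈ L, ∀ z ∈ L1, y * z - z * y ∈ L2
  fm : ∀ u ∈ L, ∀ zs : List S, (∀ z ∈ zs, z ∈ L) → Fm u zs = 0
  d0 : ∀ u ∈ L, D0 x u = 0
  d1 : ∀ u ∈ L, ∀ z ∈ L2, D1 x u z = 0

/-- value of a word (`none` is the letter `x`) -/
def ev {S : Type} [Ring S] (x : S) (w : List (Option S)) : S := (w.map fun o => o.getD x).prod

/-- the words in `x` and `L0` with exactly `i` letters `x` -/
def Wd {S : Type} [Ring S] (x : S) (L0 : Set S) (i : ℕ) : Set S :=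
  {s | ∃ w : List (Option S), (∀ y, some y ∈ w → y ∈ L0) ∧ w.countP Option.isNone = i ∧
    s = ev x w}

/-- step E1: words with `c` letters `x` are divisible by `p` -/
def E1 (c : ℕ) : Prop :=
  ∀ (S : Type) [Ring S] (x : S) (L0 L L1 L2 : Set S), Ids S x L0 L L1 L2 → ∀ p : ℕ, p.Prime →
    ∀ s ∈ Wd x L0 c, ∃ t ∈ AddSubgroup.closure (Wd x L0 c), s = p • t

/-- one step of the derivative of the Engel word: state `(c_k, v_k)` -/
def phiStep {R : Type} [Ring R] (y : Rˣ) (s : Rˣ × R) : Rˣ × R :=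
  (cm s.1 y, (1 - (s.1 : R) * (cm s.1 y : Rˣ)) + s.2 * ((y : R) - (cm s.1 y : Rˣ)))

/-- if `[u, y, y, y, y] = c` then `[u, y v, y v, y v, y v] = c * v ^ Phi u y` for `v` in an
abelian normal subgroup -/
def Phi {R : Type} [Ring R] (u y : Rˣ) : R := ((phiStep y)^[4] (u, 0)).2

/-- the filtration in which `ρ a - 1` has weight `W` and the other generators weight one -/
inductive Fw {H R : Type} [Group H] [Ring R] (ρ : H →* Rˣ) (T : Set H) (a : H) (W : ℕ) :
    ℕ → R → Prop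
  | zero (n : ℕ) : Fw ρ T a W n 0
  | add {n : ℕ} {r s : R} : Fw ρ T a W n r → Fw ρ T a W n s → Fw ρ T a W n (r + s)
  | neg {n : ℕ} {r : R} : Fw ρ T a W n r → Fw ρ T a W n (-r)
  | mono {n m : ℕ} {r : R} : m ≤ n → Fw ρ T a W n r → Fw ρ T a W m r
  | unit (h : H) : Fw ρ T a W 0 (ρ h : Rˣ)
  | gen {t : H} : t ∈ T → Fw ρ T a W 1 ((ρ t : Rˣ) - 1)
  | gena : Fw ρ T a W W ((ρ a : Rˣ) - 1)
  | mul {n m : ℕ} {r s : R} : Fw ρ T a W n r → Fw ρ T a W m s → Fw ρ T a W (n + m) (r * s)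

/-- step E2: products of `c` elements `ρ g - 1`, `g` in the normal closure of `a`, are
infinitely divisible by `p` -/
def E2 (c : ℕ) : Prop :=
  ∀ (H R : Type) [Group H] [Ring R] (ρ : H →* Rˣ) (T : Set H) (a : H), a ∈ T →
    Subgroup.closure T = ⊤ →
    (∀ t ∈ T, ∀ h y : H, Phi (ρ (h⁻¹ * t * h)) (ρ y) = 0) →
    (∃ q : ℕ, ∀ r : R, Fw ρ T a 1 q r → r = 0) →
    ∀ p : ℕ, p.Prime → ∀ k : ℕ, ∀ l : List H, l.length = c →
      (∀ g ∈ l, g ∈ Subgroup.normalClosure ({a} : Set H)) →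
      ∃ r : R, (l.map fun g => ((ρ g : Rˣ) : R) - 1).prod = p ^ k • r

/-- a symbol map of a filtered ring -/
structure Sym {R S : Type} [Ring R] [Ring S] (F : ℕ → R → Prop) (σ : ℕ → R → S) : Prop where
  add : ∀ {n : ℕ} {r s : R}, F n r → F n s → σ n (r + s) = σ n r + σ n s
  neg : ∀ {n : ℕ} {r : R}, F n r → σ n (-r) = -σ n r
  mul : ∀ {n m : ℕ} {r s : R}, F n r → F m s → σ (n + m) (r * s) = σ n r * σ m s
  van : ∀ {n : ℕ} {r : R}, F (n + 1) r → σ n r = 0
  one : σ 0 1 = 1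

/-- step E2b: the symbols of the iterated commutators of the generators satisfy `Ids` -/
def E2b : Prop :=
  ∀ (H R S : Type) [Group H] [Ring R] [Ring S] (ρ : H →* Rˣ) (T : Set H) (a : H) (W : ℕ)
    (σ : ℕ → R → S), 1 ≤ W → a ∈ T →
    (∀ t ∈ T, ∀ h y : H, Phi (ρ (h⁻¹ * t * h)) (ρ y) = 0) → Sym (Fw ρ T a W) σ →
    ∃ L0 L L1 L2 : Set S, Ids S (σ W ((ρ a : Rˣ) - 1)) L0 L L1 L2 ∧
      ∀ t ∈ T, σ 1 ((ρ t : Rˣ) - 1) ∈ L0

/-- step E3: the normal closure of a generator has bounded class -/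
def E3 (d : ℕ) : Prop :=
  ∀ (H : Type) [Group H] (T : Set H) (a : H), a ∈ T → T.Finite → Subgroup.closure T = ⊤ →
    Group.IsNilpotent H → (∀ t ∈ T, RE 4 t) →
    (Subgroup.normalClosure ({a} : Set H)).lowerCentralSeries d = ⊥

end Pool.Agent.P.MP_9682d1_al.E
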