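import Pool.Agent.P.MP_9682d1_al.E.OneB

set_option autoImplicit false
set_option linter.dupNamespace false
set_option maxRecDepth 100000

namespace Pool.Agent.P.MP_9682d1_al.E.One

theorem k0_XXXX : chk 0 6 [true, true, true, true]
   [(.f (.l 0) [(.l 0), (.l 0), (.l 0)], [⟨0, 1, [], []⟩])] = true := by
  decide +kernel

theorem k0_XYYY : chk 0 6 [true, false, false, false]
   [(.f (.l 3) [(.l 1), (.l 2), (.l 0)], [⟨1, 0, [], []⟩])] = true := by
  decide +kernel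

theorem k0_XXYY : chk 0 6 [true, true, false, false]
   [(.f (.l 2) [(.l 1), (.l 0), (.l 0)], [⟨0, 1, [], []⟩])] = true := by
  decide +kernel

theorem k0_XYXY : chk 0 20 [true, false, true, false]
   [(.f (.l 2) [(.l 1), (.l 0), (.l 0)], [⟨0, 2, [], []⟩]),
    (.f (.l 0) [(.l 1), (.l 2), (.l 0)], [⟨0, 3, [], []⟩])] = true := by
  decide +kernel

theorem k0_XYYXY : chk 0 10 [true, false, false, true, false]
   [(.f (.l 0) [(.l 1), (.l 2), (.l 0)], [⟨0, 3, [], [3]⟩]),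
    (.f (.l 2) [(.l 1), (.l 0), (.l 0)], [⟨0, 2, [], [3]⟩]),
    (.f (.l 1) [(.l 2), (.l 3), (.l 0)], [⟨4, 0, [0], []⟩]),
    (.f (.l 0) [(.l 1), (.l 2), (.l 3)], [⟨1, 0, [0], []⟩])] = true := by
  decide +kernel

theorem k0_XXYX : chk 0 30 [true, true, false, true]
   [(.f (.l 1) [(.l 0), (.l 0), (.l 0)], [⟨0, 2, [], []⟩]),
    (.f (.l 0) [(.l 1), (.l 0), (.l 0)], [⟨0, 3, [], []⟩])] = true := by
  decide +kernel

theorem k3_XXXX : chk 3 1 [true, true, true, true]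
   [(.d0 (.l 0), [⟨0, 1, [], []⟩])] = true := by
  decide +kernel

theorem k3_YXYY : chk 3 1 [false, true, false, false]
   [(.f (.l 1) [(.l 2), (.l 3), (.l 0)], [⟨1, 0, [], []⟩])] = true := by
  decide +kernel

theorem k3_XXYY : chk 3 1 [true, true, false, false]
   [(.f (.l 0) [(.l 1), (.l 2), (.l 0)], [⟨1, 0, [], []⟩])] = true := by
  decide +kernel

theorem k3_XYXY : chk 3 1 [true, false, true, false]
   [(.f (.l 2) [(.l 1), (.l 0), (.l 0)], [⟨0, 1, [], []⟩])] = true := by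
  decide +kernel

theorem k3_XXYX : chk 3 1 [true, true, false, true]
   [(.f (.l 0) [(.l 1), (.l 0), (.l 0)], [⟨0, 1, [], []⟩]),
    (.d0 (.l 1), [⟨0, 1, [], []⟩])] = true := by
  decide +kernel

theorem k2_XXXX : chk 2 1 [true, true, true, true]
   [(.d0 (.l 0), [⟨1, 0, [], []⟩])] = true := by
  decide +kernel

theorem k2_XXXY : chk 2 1 [true, true, true, false]
   [(.d0 (.l 1), [⟨1, 0, [], []⟩])] = true := by
  decide +kernel

theorem k2_YXYYY : chk 2 1 [false, true, false, false, false]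
   [(.f (.l 4) [(.l 1), (.l 2), (.l 3), (.l 0)], [⟨1, 0, [], []⟩]),
    (.f (.l 2) [(.l 1), (.l 3), (.l 0)], [⟨1, 0, [], [4]⟩]),
    (.f (.l 3) [(.l 1), (.l 2), (.l 0)], [⟨1, 0, [], [4]⟩])] = true := by
  decide +kernel

theorem k2_XXYYY : chk 2 1 [true, true, false, false, false]
   [(.f (.l 3) [(.l 2), (.l 0), (.b (.l 0) (.l 1))], [⟨1, 0, [], []⟩])] = true := by
  decide +kernel

theorem k2_YXYYX : chk 2 1 [false, true, false, false, true]
   [(.f (.l 0) [(.l 1), (.l 2), (.l 3), (.l 0)], [⟨1, 0, [], []⟩]),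
    (.f (.l 2) [(.l 1), (.l 3), (.l 0)], [⟨1, 0, [], [0]⟩]),
    (.f (.l 3) [(.l 1), (.l 2), (.l 0)], [⟨1, 0, [], [0]⟩])] = true := by
  decide +kernel

theorem k2_XXYXY : chk 2 1 [true, true, false, true, false]
   [(.f (.l 2) [(.l 1), (.l 0), (.l 0), (.l 0)], [⟨1, 0, [], []⟩])] = true := by
  decide +kernel

theorem k2_XXYXX : chk 2 1 [true, true, false, true, true]
   [(.f (.l 0) [(.l 1), (.l 0), (.l 0), (.l 0)], [⟨1, 0, [], []⟩])] = true := by
  decide +kernel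

theorem k2_XXYYX : chk 2 1 [true, true, false, false, true]
   [(.f (.l 0) [(.l 2), (.l 0), (.b (.l 0) (.l 1))], [⟨1, 0, [], []⟩])] = true := by
  decide +kernel

theorem k2_XYXYXY : chk 2 1 [true, false, true, false, true, false]
   [(.f (.l 3) [(.l 1), (.l 2), (.l 0), (.l 0), (.l 0)], [⟨1, 0, [], []⟩]),
    (.f (.l 3) [(.l 1), (.l 2), (.l 0)], [⟨1, 0, [0, 0], []⟩]),
    (.f (.l 0) [(.l 2), (.l 0), (.b (.l 0) (.l 1))], [⟨1, 0, [], [3]⟩]),
    (.f (.l 3) [(.l 1), (.l 2), (.l 0), (.l 0)], [⟨1, 0, [0], []⟩]),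
    (.f (.l 0) [(.l 1), (.l 2), (.l 0)], [⟨1, 0, [0], [3]⟩])] = true := by
  decide +kernel

end Pool.Agent.P.MP_9682d1_al.E.One
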