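import Pool.Agent.P.MP_9682d1_al.E.OneB

set_option autoImplicit false
set_option linter.dupNamespace false
set_option maxRecDepth 100000

namespace Pool.Agent.P.MP_9682d1_al.E.One

theorem k5_XXXX : chk 5 1 [true, true, true, true]
   [(.f (.l 0) [(.l 0), (.l 0), (.l 0)], [⟨0, 1, [], []⟩])] = true := by
  decide +kernel

theorem k5_XXXY : chk 5 1 [true, true, true, false]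
   [(.f (.l 1) [(.l 0), (.l 0), (.l 0)], [⟨1, 0, [], []⟩])] = true := by
  decide +kernel

theorem k5_XYYY : chk 5 1 [true, false, false, false]
   [(.f (.l 3) [(.l 1), (.l 2), (.l 0)], [⟨1, 0, [], []⟩])] = true := by
  decide +kernel

theorem k5_XXYY : chk 5 1 [true, true, false, false]
   [(.f (.l 2) [(.l 1), (.l 0), (.l 0)], [⟨0, 1, [], []⟩])] = true := by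
  decide +kernel

theorem k5_XXYXXYX : chk 5 1 [true, true, false, true, true, false, true]
   [(.f (.l 2) [(.l 0), (.l 0), (.b (.b (.l 0) (.b (.l 0) (.l 1))) (.l 0))], [⟨0, 1, [], []⟩]),
    (.f (.l 1) [(.l 0), (.l 0), (.l 0)], [⟨1, 0, [0, 0], [2]⟩, ⟨2, 0, [0], [0, 2]⟩, ⟨0, 1, [], [0, 0, 2]⟩, ⟨2, 0, [], [0, 2, 0]⟩, ⟨0, 1, [0, 0, 2], []⟩]),
    (.f (.l 2) [(.l 0), (.l 0), (.l 0)], [⟨0, 1, [0], [0, 1]⟩]),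
    (.f (.l 2) [(.l 1), (.l 0), (.l 0)], [⟨0, 2, [0, 0, 0], []⟩, ⟨2, 0, [0, 0], [0]⟩]),
    (.f (.l 2) [(.l 0), (.l 0), (.b (.l 0) (.b (.l 0) (.l 1)))], [⟨0, 1, [], [0]⟩])] = true := by
  decide +kernel

theorem k5_XXYXYY : chk 5 1 [true, true, false, true, false, false]
   [(.f (.l 3) [(.l 2), (.l 0), (.b (.l 0) (.b (.l 0) (.l 1)))], [⟨1, 0, [], []⟩]),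
    (.f (.l 2) [(.l 1), (.l 0), (.l 0)], [⟨0, 1, [0], [3]⟩]),
    (.f (.l 3) [(.l 1), (.l 0), (.l 0)], [⟨0, 1, [0], [2]⟩]),
    (.f (.l 3) [(.l 1), (.l 2), (.l 0)], [⟨1, 0, [0, 0], []⟩])] = true := by
  decide +kernel

theorem k5_XYYXYY : chk 5 1 [true, false, false, true, false, false]
   [(.f (.l 4) [(.l 3), (.b (.l 0) (.l 1)), (.b (.l 0) (.l 2))], [⟨1, 0, [], []⟩]),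
    (.f (.l 4) [(.l 1), (.l 2), (.l 3)], [⟨2, 0, [0, 0], []⟩]),
    (.f (.l 4) [(.l 1), (.l 3), (.l 0)], [⟨2, 0, [0, 2], []⟩]),
    (.f (.l 4) [(.l 2), (.l 3), (.l 0)], [⟨2, 0, [0, 1], []⟩]),
    (.f (.l 2) [(.l 1), (.l 0), (.l 0)], [⟨0, 2, [], [3, 4]⟩])] = true := by
  decide +kernel

theorem k5_XXYXYXY : chk 5 1 [true, true, false, true, false, true, false]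
   [(.f (.l 3) [(.l 0), (.b (.l 0) (.l 1)), (.b (.l 0) (.l 2))], [⟨2, 0, [0], []⟩]),
    (.f (.l 3) [(.l 1), (.l 0), (.l 0)], [⟨1, 0, [0, 0], [2]⟩, ⟨0, 1, [0, 0, 2], []⟩, ⟨2, 0, [0], [0, 2]⟩]),
    (.f (.l 3) [(.l 1), (.l 2), (.l 0)], [⟨0, 1, [0, 0, 0], []⟩, ⟨0, 1, [0, 0], [0]⟩]),
    (.f (.l 2) [(.l 0), (.l 0), (.l 0)], [⟨0, 1, [], [3, 0, 1]⟩]),
    (.f (.l 3) [(.l 2), (.l 0), (.b (.l 0) (.b (.l 0) (.l 1)))], [⟨0, 1, [0], []⟩]),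
    (.f (.l 3) [(.l 2), (.l 0), (.l 0)], [⟨0, 2, [0], [0, 1]⟩, ⟨0, 1, [0, 0, 1], []⟩]),
    (.f (.l 1) [(.l 0), (.l 0), (.l 0)], [⟨0, 1, [], [3, 0, 2]⟩, ⟨1, 0, [], [2, 0, 3]⟩, ⟨0, 2, [], [0, 2, 3]⟩]),
    (.f (.l 2) [(.l 1), (.l 0), (.l 0)], [⟨0, 1, [0], [0, 3]⟩, ⟨0, 1, [0, 0], [3]⟩]),
    (.f (.l 3) [(.l 1), (.l 0), (.b (.l 0) (.b (.l 0) (.l 2)))], [⟨0, 1, [0], []⟩])] = true := by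
  decide +kernel

theorem k5_XYXXYXY : chk 5 1 [true, false, true, true, false, true, false]
   [(.f (.l 3) [(.l 0), (.b (.l 0) (.l 2)), (.b (.l 0) (.b (.l 0) (.l 1)))], [⟨1, 0, [], []⟩]),
    (.f (.l 3) [(.l 1), (.l 0), (.l 0)], [⟨1, 0, [0, 0, 2], []⟩, ⟨0, 1, [], [0, 0, 2]⟩, ⟨1, 0, [], [0, 2, 0]⟩, ⟨2, 0, [0], [0, 2]⟩]),
    (.f (.l 3) [(.l 1), (.l 0), (.b (.l 0) (.b (.l 0) (.l 2)))], [⟨0, 1, [0], []⟩]),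
    (.f (.l 3) [(.l 0), (.b (.l 0) (.l 1)), (.b (.l 0) (.l 2))], [⟨0, 2, [0], []⟩]),
    (.f (.l 3) [(.l 2), (.l 0), (.b (.l 0) (.b (.l 0) (.l 1)))], [⟨1, 0, [0], []⟩, ⟨2, 0, [], [0]⟩]),
    (.f (.l 1) [(.l 0), (.l 0), (.l 0)], [⟨1, 0, [], [3, 0, 2]⟩, ⟨1, 0, [], [0, 2, 3]⟩, ⟨1, 0, [0, 3], [2]⟩, ⟨1, 0, [], [2, 0, 3]⟩]),
    (.f (.l 3) [(.l 1), (.l 2), (.l 0)], [⟨0, 2, [0, 0], [0]⟩, ⟨0, 2, [0], [0, 0]⟩]),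
    (.f (.l 3) [(.l 2), (.l 0), (.l 0)], [⟨0, 1, [], [0, 0, 1]⟩, ⟨0, 2, [0, 0, 1], []⟩]),
    (.f (.l 2) [(.l 1), (.l 0), (.l 0)], [⟨1, 0, [], [0, 3, 0]⟩, ⟨0, 2, [0], [3, 0]⟩, ⟨0, 1, [], [0, 0, 3]⟩, ⟨0, 2, [0, 0], [3]⟩]),
    (.f (.l 3) [(.l 2), (.l 0), (.b (.b (.l 0) (.b (.l 0) (.l 1))) (.l 0))], [⟨0, 1, [], []⟩]),
    (.f (.l 3) [(.l 1), (.l 0), (.b (.b (.l 0) (.b (.l 0) (.l 2))) (.l 0))], [⟨2, 0, [], []⟩]),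
    (.f (.l 2) [(.l 0), (.l 0), (.l 0)], [⟨1, 0, [], [0, 1, 3]⟩])] = true := by
  decide +kernel

theorem k5_XYXYYXY : chk 5 1 [true, false, true, false, false, true, false]
   [(.f (.l 4) [(.l 3), (.b (.l 0) (.l 2)), (.b (.l 0) (.b (.l 0) (.l 1)))], [⟨0, 1, [], []⟩]),
    (.f (.l 4) [(.l 2), (.l 3), (.l 0)], [⟨2, 0, [0, 0, 1], []⟩, ⟨0, 2, [0], [0, 1]⟩]),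
    (.f (.l 2) [(.l 1), (.l 0), (.l 0)], [⟨0, 2, [0], [3, 4]⟩, ⟨2, 0, [], [0, 3, 4]⟩, ⟨0, 2, [0, 4], [3]⟩, ⟨0, 2, [], [4, 0, 3]⟩, ⟨0, 1, [], [3, 0, 4]⟩, ⟨0, 1, [0, 3], [4]⟩]),
    (.f (.l 3) [(.l 1), (.l 2), (.l 0)], [⟨2, 0, [0, 0], [4]⟩, ⟨0, 1, [0, 0, 4], []⟩, ⟨0, 1, [0], [0, 4]⟩]),
    (.f (.l 4) [(.l 1), (.l 3), (.l 0)], [⟨0, 1, [0, 0], [2]⟩, ⟨0, 2, [0, 2, 0], []⟩, ⟨0, 1, [0, 0, 2], []⟩]),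
    (.f (.l 4) [(.l 1), (.l 2), (.l 0)], [⟨0, 1, [0, 0], [3]⟩, ⟨0, 1, [0, 3, 0], []⟩, ⟨1, 0, [0], [0, 3]⟩]),
    (.f (.l 4) [(.l 1), (.l 2), (.l 3)], [⟨1, 0, [0, 0], [0]⟩]),
    (.f (.l 3) [(.l 2), (.l 0), (.l 0)], [⟨2, 0, [], [4, 0, 1]⟩, ⟨1, 0, [], [0, 1, 4]⟩, ⟨1, 0, [0, 1], [4]⟩]),
    (.f (.l 4) [(.l 1), (.l 3), (.b (.l 0) (.b (.l 0) (.l 2)))], [⟨1, 0, [0], []⟩]),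
    (.f (.l 4) [(.l 1), (.l 0), (.l 0)], [⟨1, 0, [], [0, 2, 3]⟩, ⟨0, 2, [0, 2], [3]⟩, ⟨0, 2, [0, 3], [2]⟩, ⟨0, 2, [], [3, 0, 2]⟩, ⟨1, 0, [], [2, 0, 3]⟩]),
    (.f (.l 4) [(.l 2), (.l 0), (.l 0)], [⟨0, 1, [], [0, 1, 3]⟩]),
    (.f (.l 3) [(.l 1), (.l 0), (.l 0)], [⟨0, 2, [0, 4], [2]⟩, ⟨0, 1, [], [0, 2, 4]⟩, ⟨0, 2, [], [4, 0, 2]⟩, ⟨2, 0, [], [2, 0, 4]⟩, ⟨0, 1, [0, 2], [4]⟩]),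
    (.f (.l 4) [(.l 2), (.b (.l 0) (.l 1)), (.b (.l 0) (.l 3))], [⟨0, 1, [0], []⟩]),
    (.f (.l 4) [(.l 2), (.l 3), (.b (.l 0) (.b (.l 0) (.l 1)))], [⟨2, 0, [0], []⟩])] = true := by
  decide +kernel

theorem k5_XYXYXYXY : chk 5 1 [true, false, true, false, true, false, true, false]
   [(.f (.l 3) [(.l 0), (.b (.l 0) (.l 2)), (.b (.l 0) (.b (.l 0) (.l 1)))], [⟨2, 0, [], [4]⟩]),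
    (.f (.l 3) [(.l 1), (.l 2), (.l 0)], [⟨1, 0, [0, 0, 0, 4], []⟩, ⟨1, 0, [0], [0, 0, 4]⟩, ⟨1, 0, [0, 0, 4, 0], []⟩, ⟨0, 1, [0], [0, 4, 0]⟩, ⟨0, 1, [0, 4, 0], [0]⟩, ⟨0, 1, [0, 0], [4, 0]⟩, ⟨2, 0, [0, 0], [0, 4]⟩]),
    (.f (.l 4) [(.l 3), (.l 0), (.l 0)], [⟨0, 1, [], [0, 1, 0, 2]⟩, ⟨0, 1, [0, 1], [0, 2]⟩, ⟨0, 2, [0, 1, 0, 2], []⟩, ⟨0, 1, [0], [0, 1, 2]⟩, ⟨0, 2, [0, 2], [0, 1]⟩]),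
    (.f (.l 3) [(.l 1), (.l 0), (.l 0)], [⟨1, 0, [0], [0, 2, 4]⟩, ⟨0, 2, [0, 0, 2, 4], []⟩, ⟨2, 0, [0, 2], [0, 4]⟩, ⟨1, 0, [], [0, 4, 0, 2]⟩, ⟨0, 1, [], [0, 2, 0, 4]⟩, ⟨1, 0, [0, 0, 4], [2]⟩, ⟨0, 1, [], [0, 0, 2, 4]⟩, ⟨2, 0, [0, 4, 0, 2], []⟩, ⟨2, 0, [0, 2, 0], [4]⟩, ⟨0, 2, [0, 0, 2], [4]⟩, ⟨0, 2, [0, 4, 0], [2]⟩, ⟨0, 2, [0, 4], [0, 2]⟩, ⟨2, 0, [0, 2, 0, 4], []⟩]),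
    (.f (.l 2) [(.l 1), (.l 0), (.l 0)], [⟨0, 1, [0, 3], [0, 4]⟩, ⟨2, 0, [0, 4], [0, 3]⟩, ⟨2, 0, [0], [3, 4, 0]⟩, ⟨0, 2, [0], [3, 0, 4]⟩, ⟨2, 0, [0, 0, 3, 4], []⟩, ⟨1, 0, [], [0, 4, 0, 3]⟩, ⟨0, 1, [0, 0], [3, 4]⟩, ⟨1, 0, [0, 0, 3], [4]⟩, ⟨2, 0, [0, 4, 0], [3]⟩, ⟨1, 0, [0], [4, 0, 3]⟩, ⟨1, 0, [0, 3, 0], [4]⟩, ⟨0, 2, [0, 4, 0, 3], []⟩, ⟨0, 1, [], [0, 3, 0, 4]⟩, ⟨1, 0, [0, 3, 0, 4], []⟩, ⟨2, 0, [0], [0, 3, 4]⟩]),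
    (.f (.l 4) [(.l 2), (.b (.l 0) (.l 1)), (.b (.l 0) (.l 3))], [⟨1, 0, [0, 0], []⟩]),
    (.f (.l 4) [(.l 2), (.l 3), (.l 0)], [⟨0, 2, [0, 0, 1, 0], []⟩, ⟨2, 0, [0, 1, 0, 0], []⟩, ⟨2, 0, [0], [0, 1, 0]⟩, ⟨0, 1, [0], [0, 0, 1]⟩, ⟨0, 1, [0, 0, 0, 1], []⟩, ⟨2, 0, [0, 0], [0, 1]⟩, ⟨0, 2, [0, 0, 1], [0]⟩, ⟨1, 0, [0, 1, 0], [0]⟩]),
    (.f (.l 3) [(.l 2), (.l 0), (.l 0)], [⟨2, 0, [], [0, 4, 0, 1]⟩, ⟨0, 1, [0, 4, 0, 1], []⟩, ⟨0, 2, [], [0, 0, 1, 4]⟩, ⟨0, 1, [0], [4, 0, 1]⟩, ⟨0, 2, [0, 4], [0, 1]⟩, ⟨0, 2, [0], [0, 1, 4]⟩, ⟨2, 0, [0, 1], [0, 4]⟩, ⟨1, 0, [0, 0, 1], [4]⟩]),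
    (.f (.l 4) [(.l 1), (.l 2), (.l 3)], [⟨1, 0, [0, 0, 0], [0]⟩, ⟨1, 0, [0, 0], [0, 0]⟩]),
    (.f (.l 4) [(.l 2), (.l 0), (.b (.l 0) (.b (.l 0) (.l 1)))], [⟨2, 0, [0, 3], []⟩, ⟨2, 0, [0], [3]⟩, ⟨1, 0, [], [0, 3]⟩]),
    (.f (.l 4) [(.l 1), (.l 0), (.l 0)], [⟨0, 2, [0], [0, 2, 3]⟩, ⟨0, 2, [0, 2], [0, 3]⟩, ⟨2, 0, [0, 3], [0, 2]⟩, ⟨2, 0, [0], [2, 0, 3]⟩, ⟨2, 0, [0, 0, 3], [2]⟩, ⟨2, 0, [], [0, 2, 0, 3]⟩, ⟨1, 0, [0, 2, 0, 3], []⟩, ⟨0, 1, [0, 2, 0], [3]⟩, ⟨0, 2, [0, 3, 0, 2], []⟩, ⟨0, 2, [0, 0, 2], [3]⟩, ⟨0, 2, [], [0, 3, 0, 2]⟩]),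
    (.f (.l 2) [(.l 0), (.l 0), (.l 0)], [⟨2, 0, [], [3, 0, 1, 4]⟩]),
    (.f (.l 4) [(.l 1), (.l 2), (.l 0)], [⟨0, 1, [0, 3, 0, 0], []⟩, ⟨2, 0, [0, 0], [0, 3]⟩, ⟨0, 2, [0, 0, 0, 3], []⟩, ⟨0, 1, [0, 0], [3, 0]⟩, ⟨0, 2, [0, 0, 3, 0], []⟩, ⟨0, 2, [0, 0, 3], [0]⟩, ⟨1, 0, [0, 0, 0], [3]⟩, ⟨1, 0, [0, 3, 0], [0]⟩, ⟨1, 0, [0], [0, 3, 0]⟩]),
    (.f (.l 3) [(.l 2), (.l 0), (.b (.l 0) (.b (.l 0) (.l 1)))], [⟨2, 0, [0], [4]⟩, ⟨1, 0, [], [0, 4]⟩, ⟨1, 0, [0, 4], []⟩]),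
    (.f (.l 4) [(.l 3), (.l 0), (.b (.l 0) (.b (.l 0) (.l 2)))], [⟨0, 2, [], [0, 1]⟩]),
    (.f (.l 4) [(.l 1), (.l 3), (.l 0)], [⟨0, 2, [0, 0], [2, 0]⟩, ⟨1, 0, [0, 0, 0, 2], []⟩, ⟨0, 1, [0, 2, 0, 0], []⟩, ⟨1, 0, [0, 0, 0], [2]⟩, ⟨0, 1, [0], [0, 0, 2]⟩, ⟨1, 0, [0, 0], [0, 2]⟩, ⟨0, 1, [0, 0, 2, 0], []⟩, ⟨0, 2, [0, 2, 0], [0]⟩, ⟨1, 0, [0], [0, 2, 0]⟩]),
    (.f (.l 4) [(.l 2), (.l 0), (.l 0)], [⟨2, 0, [0, 3, 0, 1], []⟩, ⟨0, 2, [0], [0, 1, 3]⟩, ⟨0, 2, [0], [3, 0, 1]⟩, ⟨0, 1, [0, 1], [0, 3]⟩, ⟨1, 0, [0, 1, 0], [3]⟩, ⟨2, 0, [], [0, 3, 0, 1]⟩, ⟨1, 0, [0, 1, 0, 3], []⟩, ⟨0, 2, [], [0, 1, 0, 3]⟩]),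
    (.f (.l 4) [(.l 1), (.l 0), (.b (.l 0) (.b (.l 0) (.l 2)))], [⟨1, 0, [], [0, 3]⟩, ⟨1, 0, [0, 3], []⟩, ⟨0, 2, [0], [3]⟩]),
    (.f (.l 4) [(.l 1), (.l 3), (.b (.l 0) (.b (.l 0) (.l 2)))], [⟨0, 1, [0, 0], []⟩]),
    (.f (.l 4) [(.l 1), (.l 2), (.b (.l 0) (.b (.l 0) (.l 3)))], [⟨1, 0, [0, 0], []⟩]),
    (.f (.l 4) [(.l 1), (.l 0), (.b (.l 0) (.b (.l 0) (.l 3)))], [⟨0, 1, [0], [2]⟩, ⟨2, 0, [0, 2], []⟩]),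
    (.f (.l 4) [(.l 3), (.l 0), (.b (.l 0) (.b (.l 0) (.l 1)))], [⟨0, 2, [], [0, 2]⟩]),
    (.f (.l 4) [(.l 0), (.b (.l 0) (.l 1)), (.b (.l 0) (.l 3))], [⟨2, 0, [], [0, 2]⟩]),
    (.f (.l 1) [(.l 0), (.l 0), (.l 0)], [⟨0, 1, [], [3, 0, 2, 4]⟩, ⟨0, 1, [], [2, 0, 3, 4]⟩]),
    (.f (.l 4) [(.l 1), (.b (.l 0) (.l 2)), (.b (.l 0) (.l 3))], [⟨0, 1, [0, 0], []⟩]),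
    (.f (.l 3) [(.l 0), (.b (.l 0) (.l 1)), (.b (.l 0) (.l 2))], [⟨2, 0, [0, 4], []⟩, ⟨0, 1, [], [0, 4]⟩, ⟨2, 0, [0], [4]⟩]),
    (.f (.l 4) [(.l 3), (.b (.l 0) (.l 2)), (.b (.l 0) (.b (.l 0) (.l 1)))], [⟨1, 0, [0], []⟩]),
    (.f (.l 3) [(.l 1), (.l 0), (.b (.l 0) (.b (.l 0) (.l 2)))], [⟨2, 0, [0, 4], []⟩, ⟨2, 0, [], [0, 4]⟩, ⟨1, 0, [0], [4]⟩]),
    (.f (.l 4) [(.l 2), (.l 3), (.b (.l 0) (.b (.l 0) (.l 1)))], [⟨0, 2, [0, 0], []⟩])] = true := by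
  decide +kernel

end Pool.Agent.P.MP_9682d1_al.E.One
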