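import Pool.Agent.P.MP_9682d1_al.E.OneC
import Pool.Agent.P.MP_9682d1_al.E.OneK0
import Pool.Agent.P.MP_9682d1_al.E.OneK5

set_option autoImplicit false
set_option linter.dupNamespace false

namespace Pool.Agent.P.MP_9682d1_al.E.One

open Pool.Agent.P.MP_9682d1_al.E

def hit (Rs : List (ℕ × List Bool)) (s : List Bool) : Bool := Rs.any fun r => r.2.isSuffixOf s

def cov (Rs : List (ℕ × List Bool)) : ℕ → List Bool → Bool
  | 0, _ => false
  | n + 1, s => (hit Rs (s ++ [true]) || cov Rs n (s ++ [true])) &&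
      (hit Rs (s ++ [false]) || cov Rs n (s ++ [false]))

theorem cov_spec (Rs : List (ℕ × List Bool)) (n : ℕ) : ∀ s t : List Bool, cov Rs n s = true →
    n ≤ t.length → ∃ r ∈ Rs, ∃ a b, s ++ t = a ++ r.2 ++ b := by
  induction n with
  | zero => intro s t h; cases h
  | succ n ih =>
    intro s t h ht
    cases t with
    | nil => cases ht
    | cons e t =>
      have h1 : (hit Rs (s ++ [e]) || cov Rs n (s ++ [e])) = true := by
        rw [cov, Bool.and_eq_true] at h
        cases e
        · exact h.2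
        · exact h.1
      have e1 : s ++ e :: t = (s ++ [e]) ++ t := by simp
      rw [e1]
      rcases Bool.or_eq_true_iff.1 h1 with h2 | h2
      · obtain ⟨r, hr, h3⟩ := List.any_eq_true.1 h2
        obtain ⟨a, ha⟩ := List.isSuffixOf_iff_suffix.1 h3
        exact ⟨r, hr, a, t, by rw [ha]⟩
      · exact ih _ t h2 (Nat.le_of_succ_le_succ ht)

theorem cX_le (s : List Bool) : cX s ≤ s.length := by
  induction s with
  | nil => exact le_rfl
  | cons b s ih => cases b <;> simp only [cX, cond_true, cond_false, List.length_cons] <;> omega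

theorem split_second (n : ℕ) (s : List Bool) : ∀ a : Bool, n + 1 ≤ cX s →
    ∃ u e t, a :: s = u ++ ([e, true] ++ t) ∧ n ≤ t.length := by
  induction s with
  | nil => intro a h; cases h
  | cons b s ih =>
    intro a h
    cases b
    · obtain ⟨u, e, t, h1, h2⟩ := ih false h
      exact ⟨a :: u, e, t, by rw [h1]; rfl, h2⟩
    · exact ⟨[], a, s, rfl, (Nat.le_of_succ_le_succ h).trans (cX_le s)⟩

theorem find_rule (Rs : List (ℕ × List Bool)) (n : ℕ) (h1 : cov Rs n [true, true] = true)
    (h2 : cov Rs n [false, true] = true) (s : List Bool) (hs : n + 2 ≤ cX s) :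
    ∃ r ∈ Rs, ∃ a b, s = a ++ r.2 ++ b := by
  cases s with
  | nil => cases hs
  | cons a s =>
    obtain ⟨u, e, t, h3, h4⟩ := split_second n s a (by
      cases a <;> simp only [cX, cond_true, cond_false] at hs <;> omega)
    obtain ⟨r, hr, a', b', h5⟩ := cov_spec Rs n [e, true] t (by cases e <;> assumption) h4
    exact ⟨r, hr, u ++ a', b', by rw [h3, h5]; simp⟩

variable {S : Type} [Ring S]

theorem cX_sh (w : List (Option S)) : cX (sh w) = w.countP Option.isNone := by
  induction w with
  | nil => rfl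
  | cons a w ih => cases a <;> simp [sh, cX] at ih ⊢ <;> exact ih

/-- the multiples of `p` -/
def Mp (x : S) (L0 : Set S) (c p : ℕ) : AddSubgroup S where
  carrier := {s | ∃ t ∈ AddSubgroup.closure (Wd x L0 c), s = p • t}
  zero_mem' := ⟨0, AddSubgroup.zero_mem _, (nsmul_zero p).symm⟩
  add_mem' := by
    rintro _ _ ⟨t, ht, rfl⟩ ⟨u, hu, rfl⟩
    exact ⟨t + u, AddSubgroup.add_mem _ ht hu, (nsmul_add t u p).symm⟩
  neg_mem' := by
    rintro _ ⟨t, ht, rfl⟩
    exact ⟨-t, AddSubgroup.neg_mem _ ht, (neg_nsmul t p).symm⟩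

theorem smul_mem_Mp {x : S} {L0 : Set S} {c p m : ℕ} (hm : p ∣ m) {w : List (Option S)}
    (hw : Vw L0 w) (hc : cX (sh w) = c) : m • ev x w ∈ Mp x L0 c p := by
  obtain ⟨k, rfl⟩ := hm
  have h : ev x w ∈ Wd x L0 c := ⟨w, hw, by rw [← cX_sh, hc], rfl⟩
  exact ⟨k • ev x w, AddSubgroup.nsmul_mem _ (AddSubgroup.subset_closure h) k, mul_nsmul' _ _ _⟩

theorem mem_of_coprime {A : AddSubgroup S} {s : S} {N p : ℕ} (h : Nat.Coprime N p)
    (h1 : N • s ∈ A) (h2 : p • s ∈ A) : s ∈ A := by
  obtain ⟨a, b, hab⟩ := Nat.isCoprime_iff_coprime.2 h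
  have e : s = a • (N • s) + b • (p • s) := by
    rw [← natCast_zsmul, ← natCast_zsmul, ← mul_zsmul, ← mul_zsmul, ← add_zsmul, hab, one_zsmul]
  rw [e]
  exact A.add_mem (A.zsmul_mem h1 a) (A.zsmul_mem h2 b)

theorem lt_ctx {s s0 : List Bool} (a b : List Bool) (hX : cX s = cX s0) (h : Lt s s0) :
    Lt (a ++ s ++ b) (a ++ s0 ++ b) := by
  unfold Lt at h ⊢
  simp only [cY_append, ph_append, hX]
  rcases h with h | ⟨h, h'⟩
  · left; omega
  · right
    refine ⟨by omega, Nat.add_lt_add_right ?_ _⟩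
    exact Nat.mul_lt_mul_of_pos_right (by omega) (by positivity)

theorem main {x : S} {L0 L L1 L2 : Set S} (hI : Ids S x L0 L L1 L2) {y0 : S} (h0 : y0 ∈ L0)
    {m p n c : ℕ} (hm : p ∣ m) (Rs : List (ℕ × List Bool))
    (hR : ∀ r ∈ Rs, Rule m r.1 r.2 ∧ Nat.Coprime r.1 p) (h1 : cov Rs n [true, true] = true)
    (h2 : cov Rs n [false, true] = true) (hc : n + 2 ≤ c) (k : ℕ) : ∀ (d : ℕ)
    (w : List (Option S)), Vw L0 w → cX (sh w) = c → cY (sh w) = k → k * 8 ^ c - ph (sh w) = d →
      ev x w ∈ Mp x L0 c p := by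
  induction k using Nat.strong_induction_on with
  | _ k ihk =>
  intro d
  induction d using Nat.strong_induction_on with
  | _ d ihd =>
  intro w hw hX hY hd
  have IH : ∀ w' : List (Option S), Vw L0 w' → cX (sh w') = c → Lt (sh w') (sh w) →
      ev x w' ∈ Mp x L0 c p := by
    intro w' hw' hX' hl
    rcases hl with hl | ⟨hl, hl'⟩
    · exact ihk _ (hY ▸ hl) _ w' hw' hX' rfl rfl
    · have := ph_le (sh w')
      rw [hX', hl, hY] at this
      exact ihd _ (by omega) w' hw' hX' (hl.trans hY) rfl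
  obtain ⟨r, hr, a, b, e⟩ := find_rule Rs n h1 h2 (sh w) (hX ▸ hc)
  obtain ⟨w1, v, rfl, e1, rfl⟩ := List.map_eq_append_iff.1 e
  obtain ⟨u, t, rfl, rfl, e2⟩ := List.map_eq_append_iff.1 e1
  have hu : Vw L0 u := fun y hy => hw y (by simp [hy])
  have ht : Vw L0 t := fun y hy => hw y (by simp [hy])
  have hv : Vw L0 v := fun y hy => hw y (by simp [hy])
  have e3 : sh t = r.2 := e2
  have key : ∀ g ∈ AddSubgroup.closure (Gs x L0 m r.2), ev x u * g * ev x v ∈ Mp x L0 c p := by
    intro g hg
    induction hg using AddSubgroup.closure_induction with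
    | mem g hg =>
      obtain ⟨t', ht', hX', hg⟩ := hg
      have hX2 : cX (sh (u ++ t' ++ v)) = c := by
        rw [← hX]; simp only [sh_append, cX_append, hX', e3]
      rcases hg with ⟨rfl, hl⟩ | rfl
      · rw [← ev_append, ← ev_append]
        refine IH _ ((hu.append ht').append hv) hX2 ?_
        simp only [sh_append, e3]
        exact lt_ctx _ _ hX' hl
      · rw [mul_smul_comm, smul_mul_assoc, ← ev_append, ← ev_append]
        exact smul_mem_Mp hm ((hu.append ht').append hv) hX2
    | zero => simp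
    | add g g' _ _ h h' => rw [mul_add, add_mul]; exact AddSubgroup.add_mem _ h h'
    | neg g _ h => rw [mul_neg, neg_mul]; exact AddSubgroup.neg_mem _ h
  have h3 := key _ ((hR r hr).1 S x L0 L L1 L2 hI y0 h0 t ht e3)
  rw [mul_smul_comm, smul_mul_assoc, ← ev_append, ← ev_append] at h3
  exact mem_of_coprime (hR r hr).2 h3 (smul_mem_Mp dvd_rfl hw hX)

theorem ev_pow {x : S} {L0 : Set S} (h0 : ∀ y, y ∉ L0) (w : List (Option S)) (hw : Vw L0 w) :
    ev x w = x ^ cX (sh w) := by
  induction w with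
  | nil => simp [ev, sh, cX]
  | cons a w ih =>
    cases a with
    | none =>
      rw [ev_cons, ih fun y hy => hw y (List.mem_cons_of_mem _ hy)]
      exact (pow_succ' x _).symm
    | some y => exact (h0 y (hw y List.mem_cons_self)).elim

theorem pow_four {x : S} {L0 L L1 L2 : Set S} (hI : Ids S x L0 L L1 L2) : x ^ 4 = 0 := by
  have h := hI.d0 x (hI.sub1 hI.memx)
  simp only [D0, dfT, brT, Tr.mul, Tr.add, Tr.sub, Tr.map, Tr.top] at h
  rw [← h]; noncomm_ring

def R0 : List (ℕ × List Bool) :=
  [(6, [true, true, true, true]),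
   (6, [true, false, false, false]),
   (6, [true, true, false, false]),
   (20, [true, false, true, false]),
   (10, [true, false, false, true, false]),
   (30, [true, true, false, true])]

theorem rule0 : ∀ r ∈ R0, Rule 0 r.1 r.2 := by
  simp only [R0, List.forall_mem_cons, List.not_mem_nil, false_imp_iff, implies_true, and_true]
  exact ⟨rule_of_chk k0_XXXX,
    rule_of_chk k0_XYYY,
    rule_of_chk k0_XXYY,
    rule_of_chk k0_XYXY,
    rule_of_chk k0_XYYXY,
    rule_of_chk k0_XXYX⟩

theorem cov0 : cov R0 21 [true, true] = true ∧ cov R0 21 [false, true] = true := by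
  decide +kernel

def R2 : List (ℕ × List Bool) :=
  [(1, [true, true, true, true]),
   (1, [true, true, true, false]),
   (1, [false, true, false, false, false]),
   (1, [true, true, false, false, false]),
   (1, [false, true, false, false, true]),
   (1, [true, true, false, true, false]),
   (1, [true, true, false, true, true]),
   (1, [true, true, false, false, true]),
   (1, [true, false, true, false, true, false])]

theorem rule2 : ∀ r ∈ R2, Rule 2 r.1 r.2 := by
  simp only [R2, List.forall_mem_cons, List.not_mem_nil, false_imp_iff, implies_true, and_true]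
  exact ⟨rule_of_chk k2_XXXX,
    rule_of_chk k2_XXXY,
    rule_of_chk k2_YXYYY,
    rule_of_chk k2_XXYYY,
    rule_of_chk k2_YXYYX,
    rule_of_chk k2_XXYXY,
    rule_of_chk k2_XXYXX,
    rule_of_chk k2_XXYYX,
    rule_of_chk k2_XYXYXY⟩

theorem cov2 : cov R2 21 [true, true] = true ∧ cov R2 21 [false, true] = true := by
  decide +kernel

def R3 : List (ℕ × List Bool) :=
  [(1, [true, true, true, true]),
   (1, [false, true, false, false]),
   (1, [true, true, false, false]),
   (1, [true, false, true, false]),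
   (1, [true, true, false, true])]

theorem rule3 : ∀ r ∈ R3, Rule 3 r.1 r.2 := by
  simp only [R3, List.forall_mem_cons, List.not_mem_nil, false_imp_iff, implies_true, and_true]
  exact ⟨rule_of_chk k3_XXXX,
    rule_of_chk k3_YXYY,
    rule_of_chk k3_XXYY,
    rule_of_chk k3_XYXY,
    rule_of_chk k3_XXYX⟩

theorem cov3 : cov R3 21 [true, true] = true ∧ cov R3 21 [false, true] = true := by
  decide +kernel

def R5 : List (ℕ × List Bool) :=
  [(1, [true, true, true, true]),
   (1, [true, true, true, false]),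
   (1, [true, false, false, false]),
   (1, [true, true, false, false]),
   (1, [true, true, false, true, true, false, true]),
   (1, [true, true, false, true, false, false]),
   (1, [true, false, false, true, false, false]),
   (1, [true, true, false, true, false, true, false]),
   (1, [true, false, true, true, false, true, false]),
   (1, [true, false, true, false, false, true, false]),
   (1, [true, false, true, false, true, false, true, false])]

theorem rule5 : ∀ r ∈ R5, Rule 5 r.1 r.2 := by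
  simp only [R5, List.forall_mem_cons, List.not_mem_nil, false_imp_iff, implies_true, and_true]
  exact ⟨rule_of_chk k5_XXXX,
    rule_of_chk k5_XXXY,
    rule_of_chk k5_XYYY,
    rule_of_chk k5_XXYY,
    rule_of_chk k5_XXYXXYX,
    rule_of_chk k5_XXYXYY,
    rule_of_chk k5_XYYXYY,
    rule_of_chk k5_XXYXYXY,
    rule_of_chk k5_XYXXYXY,
    rule_of_chk k5_XYXYYXY,
    rule_of_chk k5_XYXYXYXY⟩

theorem cov5 : cov R5 21 [true, true] = true ∧ cov R5 21 [false, true] = true := by
  decide +kernel

theorem div60 : ∀ r ∈ R0, r.1 ∣ 60 := by decide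

theorem one2 : ∀ r ∈ R2, r.1 = 1 := by decide

theorem one3 : ∀ r ∈ R3, r.1 = 1 := by decide

theorem one5 : ∀ r ∈ R5, r.1 = 1 := by decide

end Pool.Agent.P.MP_9682d1_al.E.One

namespace Pool.Agent.P.MP_9682d1_al.E

open Pool.Agent.P.MP_9682d1_al.E.One

theorem e1_of_le {c : ℕ} (hc : 23 ≤ c) : E1 c := by
  rintro S _ x L0 L L1 L2 hI p hp _ ⟨w, hw, hX, rfl⟩
  rw [← cX_sh] at hX
  show ev x w ∈ Mp x L0 c p
  by_cases h0 : ∃ y, y ∈ L0
  · obtain ⟨y0, h0⟩ := h0
    by_cases h2 : p = 2
    · exact main hI h0 (h2 ▸ dvd_rfl) R2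
        (fun r hr => ⟨rule2 r hr, by rw [one2 r hr]; exact Nat.coprime_one_left p⟩)
        cov2.1 cov2.2 hc _ _ w hw hX rfl rfl
    by_cases h3 : p = 3
    · exact main hI h0 (h3 ▸ dvd_rfl) R3
        (fun r hr => ⟨rule3 r hr, by rw [one3 r hr]; exact Nat.coprime_one_left p⟩)
        cov3.1 cov3.2 hc _ _ w hw hX rfl rfl
    by_cases h5 : p = 5
    · exact main hI h0 (h5 ▸ dvd_rfl) R5
        (fun r hr => ⟨rule5 r hr, by rw [one5 r hr]; exact Nat.coprime_one_left p⟩)
        cov5.1 cov5.2 hc _ _ w hw hX rfl rfl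
    have c2 : Nat.Coprime 2 p := (Nat.coprime_primes Nat.prime_two hp).2 (Ne.symm h2)
    have c3 : Nat.Coprime 3 p := (Nat.coprime_primes Nat.prime_three hp).2 (Ne.symm h3)
    have c5 : Nat.Coprime 5 p := (Nat.coprime_primes Nat.prime_five hp).2 (Ne.symm h5)
    have c60 : Nat.Coprime (2 * 2 * 3 * 5) p := ((c2.mul_left c2).mul_left c3).mul_left c5
    exact main hI h0 (dvd_zero p) R0
      (fun r hr => ⟨rule0 r hr, Nat.Coprime.coprime_dvd_left (div60 r hr) c60⟩)
      cov0.1 cov0.2 hc _ _ w hw hX rfl rfl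
  · rw [ev_pow (fun y hy => h0 ⟨y, hy⟩) w hw, hX, pow_eq_zero_of_le (by omega) (pow_four hI)]
    exact AddSubgroup.zero_mem _

theorem e1 : E1 23 := e1_of_le le_rfl

end Pool.Agent.P.MP_9682d1_al.E
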