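import Pool.Agent.P.MP_9682d1_al.E.Defs

set_option autoImplicit false
set_option linter.dupNamespace false

namespace Pool.Agent.P.MP_9682d1_al.E.One

open Pool.Agent.P.MP_9682d1_al.E

/-! ### ring-like maps commute with the forms -/

section hom

variable {α β : Type}

def mp (φ : α → β) : Tr α → Tr β
  | .lf a => .lf (φ a)
  | .nd l r => .nd (mp φ l) (mp φ r)

theorem top_mp (φ : α → β) (t : Tr α) : (mp φ t).top = φ t.top := by
  induction t with
  | lf a => rfl
  | nd l r _ ih => exact ih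

theorem mp_map (φ : α → β) (f : α → α) (g : β → β) (h : ∀ a, φ (f a) = g (φ a)) (t : Tr α) :
    mp φ (t.map f) = (mp φ t).map g := by
  induction t with
  | lf a => simp only [Tr.map, mp, h]
  | nd l r ih1 ih2 => simp only [Tr.map, mp, ih1, ih2]

variable [Add α] [Neg α] [Mul α] [Zero α] [One α] [Add β] [Neg β] [Mul β] [Zero β] [One β]

structure Hm (φ : α → β) : Prop where
  add : ∀ a b, φ (a + b) = φ a + φ b
  neg : ∀ a, φ (-a) = -φ a
  mul : ∀ a b, φ (a * b) = φ a * φ b
  zero : φ 0 = 0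
  one : φ 1 = 1

variable {φ : α → β}

theorem Hm.tadd (h : Hm φ) (s t : Tr α) : mp φ (s.add t) = (mp φ s).add (mp φ t) := by
  induction s generalizing t with
  | lf a => cases t <;> simp only [Tr.add, mp, h.add]
  | nd l r ih1 ih2 => cases t <;> simp only [Tr.add, mp, ih1, ih2]

theorem Hm.tmul (h : Hm φ) (s t : Tr α) : mp φ (s.mul t) = (mp φ s).mul (mp φ t) := by
  induction s generalizing t with
  | lf a => cases t <;> simp only [Tr.mul, mp, h.mul]
  | nd l r ih1 ih2 => cases t <;> simp only [Tr.mul, mp, ih1, ih2, h.tadd]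

theorem Hm.tsub (h : Hm φ) (s t : Tr α) : mp φ (s.sub t) = (mp φ s).sub (mp φ t) := by
  simp only [Tr.sub, h.tadd, mp_map φ (fun a => -a) (fun a => -a) h.neg]

theorem Hm.tcst (h : Hm φ) (a : α) (m : ℕ) : mp φ (Tr.cst a m) = Tr.cst (φ a) m := by
  induction m generalizing a with
  | zero => rfl
  | succ m ih => simp only [Tr.cst, mp, ih, h.zero]

theorem Hm.tyT (h : Hm φ) (zs : List α) : mp φ (yT zs) = yT (zs.map φ) := by
  induction zs with
  | nil => simp only [yT, mp, h.one, List.map]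
  | cons z zs ih =>
    simp only [yT, mp, List.map, ih, mp_map φ (fun a => z * a) (fun a => φ z * a) (h.mul z)]

theorem Hm.tyI (h : Hm φ) (zs : List α) : mp φ (yI zs) = yI (zs.map φ) := by
  induction zs with
  | nil => simp only [yI, mp, h.one, List.map]
  | cons z zs ih =>
    simp only [yI, mp, List.map, ih, mp_map φ (fun a => -(a * z)) (fun a => -(a * φ z))
      (fun a => by rw [h.neg, h.mul])]

theorem Hm.tthT (h : Hm φ) (zs : List α) : mp φ (thT zs) = thT (zs.map φ) := by
  induction zs with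
  | nil => simp only [thT, mp, h.zero, List.map]
  | cons z zs ih =>
    simp only [thT, mp, List.map, ih, h.tyT,
      mp_map φ (fun a => z * a) (fun a => φ z * a) (h.mul z)]

theorem Hm.fm (h : Hm φ) (u : α) (zs : List α) : φ (Fm u zs) = Fm (φ u) (zs.map φ) := by
  unfold Fm
  rw [← top_mp φ]
  simp only [fmT, fmAux, dl, h.tadd, h.tmul, h.tsub, h.tcst, h.tyT, h.tyI, h.tthT,
    List.length_map]

theorem Hm.d0 (h : Hm φ) (x u : α) : φ (D0 x u) = D0 (φ x) (φ u) := by
  unfold D0
  rw [← top_mp φ]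
  simp only [dfT, brT, h.tadd, h.tmul, h.tsub, mp]

theorem Hm.d1 (h : Hm φ) (x u z : α) : φ (D1 x u z) = D1 (φ x) (φ u) (φ z) := by
  unfold D1
  rw [← top_mp φ]
  simp only [dfT, brT, h.tadd, h.tmul, h.tsub, mp, h.zero]

end hom

/-! ### noncommutative polynomials in five letters, as tries -/

inductive P : Type
  | z : P
  | c (a b : ℕ) : P
  | n (a0 a1 a2 a3 a4 : P) : P
  | s (a b : P) : P

noncomputable def padd (a : P) : P → P :=
  P.rec (motive := fun _ => P → P) (fun b => b)
    (fun p q b => P.casesOn (motive := fun _ => P) b (.c p q) (fun p' q' => .c (Nat.add p p') (Nat.add q q'))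
      (fun b0 b1 b2 b3 b4 => .s (.c p q) (.n b0 b1 b2 b3 b4)) (fun u v => .s (.c p q) (.s u v)))
    (fun a0 a1 a2 a3 a4 r0 r1 r2 r3 r4 b => P.casesOn (motive := fun _ => P) b (.n a0 a1 a2 a3 a4)
      (fun p q => .s (.n a0 a1 a2 a3 a4) (.c p q))
      (fun b0 b1 b2 b3 b4 => .n (r0 b0) (r1 b1) (r2 b2) (r3 b3) (r4 b4))
      (fun u v => .s (.n a0 a1 a2 a3 a4) (.s u v)))
    (fun u v _ _ b => .s (.s u v) b) a

noncomputable def pneg (a : P) : P :=
  P.rec (motive := fun _ => P) .z (fun p q => .c q p)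
    (fun _ _ _ _ _ r0 r1 r2 r3 r4 => .n r0 r1 r2 r3 r4) (fun _ _ r t => .s r t) a

noncomputable def psm (p q : ℕ) (a : P) : P :=
  P.rec (motive := fun _ => P) .z
    (fun p' q' => .c (Nat.add (Nat.mul p p') (Nat.mul q q')) (Nat.add (Nat.mul p q') (Nat.mul q p')))
    (fun _ _ _ _ _ r0 r1 r2 r3 r4 => .n r0 r1 r2 r3 r4) (fun _ _ r t => .s r t) a

noncomputable def psm' (p q : ℕ) (a : P) : P :=
  cond (Nat.beq p q) .z (cond (Nat.beq p (Nat.succ q)) a
    (cond (Nat.beq q (Nat.succ p)) (pneg a) (psm (Nat.sub p q) (Nat.sub q p) a)))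

noncomputable def pmul0 (b a : P) : P :=
  P.rec (motive := fun _ => P) .z (fun p q => psm' p q b)
    (fun _ _ _ _ _ r0 r1 r2 r3 r4 => .n r0 r1 r2 r3 r4) (fun _ _ r t => .s r t) a

noncomputable def pmul (a b : P) : P :=
  P.casesOn (motive := fun _ => P) b .z (fun p q => pmul0 (.c p q) a)
    (fun b0 b1 b2 b3 b4 => pmul0 (.n b0 b1 b2 b3 b4) a) (fun u v => pmul0 (.s u v) a)

noncomputable instance : Add P := ⟨padd⟩
noncomputable instance : Neg P := ⟨pneg⟩
noncomputable instance : Mul P := ⟨pmul⟩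
instance : Zero P := ⟨.z⟩
instance : One P := ⟨.c 1 0⟩

def pl : ℕ → P → P
  | 0, t => .n t .z .z .z .z
  | 1, t => .n .z t .z .z .z
  | 2, t => .n .z .z t .z .z
  | 3, t => .n .z .z .z t .z
  | _ + 4, t => .n .z .z .z .z t

def pw (w : List ℕ) (t : P) : P := w.foldr pl t

section evP

variable {S : Type} [Ring S] (f : ℕ → S)

def evP : P → S
  | .z => 0
  | .c p q => (p : S) - q
  | .n a0 a1 a2 a3 a4 => f 0 * evP a0 + f 1 * evP a1 + f 2 * evP a2 + f 3 * evP a3 + f 4 * evP a4
  | .s a b => evP a + evP b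

theorem evP_add (a b : P) : evP f (padd a b) = evP f a + evP f b := by
  induction a generalizing b with
  | z => exact (zero_add _).symm
  | c p q =>
    cases b with
    | z => exact (add_zero _).symm
    | c p' q' =>
      show ((p + p' : ℕ) : S) - ((q + q' : ℕ) : S) = ((p : S) - q) + ((p' : S) - q')
      push_cast; abel
    | n b0 b1 b2 b3 b4 => rfl
    | s u v => rfl
  | n a0 a1 a2 a3 a4 h0 h1 h2 h3 h4 =>
    cases b with
    | z => exact (add_zero _).symm
    | c p q => rfl
    | n b0 b1 b2 b3 b4 =>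
      show evP f (.n (padd a0 b0) (padd a1 b1) (padd a2 b2) (padd a3 b3) (padd a4 b4)) = _
      simp only [evP, h0, h1, h2, h3, h4, mul_add]; abel
    | s u v => rfl
  | s u v => rfl

theorem evP_neg (a : P) : evP f (pneg a) = -evP f a := by
  induction a with
  | z => exact neg_zero.symm
  | c p q => exact (neg_sub _ _).symm
  | n a0 a1 a2 a3 a4 h0 h1 h2 h3 h4 =>
    show evP f (.n (pneg a0) (pneg a1) (pneg a2) (pneg a3) (pneg a4)) = _
    simp only [evP, h0, h1, h2, h3, h4, mul_neg]; abel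
  | s u v h1 h2 =>
    show evP f (.s (pneg u) (pneg v)) = _
    simp only [evP, h1, h2]; abel

theorem evP_sm (p q : ℕ) (a : P) : evP f (psm p q a) = ((p : S) - q) * evP f a := by
  have hc : ∀ t u : S, t * (((p : S) - q) * u) = ((p : S) - q) * (t * u) := fun t u => by
    rw [← mul_assoc, ← mul_assoc, ((Nat.cast_commute p t).sub_left (Nat.cast_commute q t)).eq]
  induction a with
  | z => exact (mul_zero _).symm
  | c p' q' =>
    show ((p * p' + q * q' : ℕ) : S) - ((p * q' + q * p' : ℕ) : S) = ((p : S) - q) * ((p' : S) - q')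
    push_cast; noncomm_ring
  | n a0 a1 a2 a3 a4 h0 h1 h2 h3 h4 =>
    show evP f (.n (psm p q a0) (psm p q a1) (psm p q a2) (psm p q a3) (psm p q a4)) = _
    simp only [evP, h0, h1, h2, h3, h4, hc, mul_add]
  | s u v h1 h2 =>
    show evP f (.s (psm p q u) (psm p q v)) = _
    simp only [evP, h1, h2, mul_add]

theorem cast_sub_sub (p q : ℕ) : ((p - q : ℕ) : S) - ((q - p : ℕ) : S) = (p : S) - q := by
  rcases Nat.le_total p q with h | h
  · rw [Nat.sub_eq_zero_of_le h, Nat.cast_sub h]; simp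
  · rw [Nat.sub_eq_zero_of_le h, Nat.cast_sub h]; simp

theorem evP_sm' (p q : ℕ) (a : P) : evP f (psm' p q a) = ((p : S) - q) * evP f a := by
  unfold psm'
  cases h1 : Nat.beq p q
  · cases h2 : Nat.beq p (Nat.succ q)
    · cases h3 : Nat.beq q (Nat.succ p)
      · simp only [cond_false, evP_sm]
        exact congrArg (· * evP f a) (cast_sub_sub p q)
      · rw [Nat.eq_of_beq_eq_true h3]; simp [evP_neg]
    · rw [Nat.eq_of_beq_eq_true h2]; simp
  · rw [Nat.eq_of_beq_eq_true h1]; simp [evP]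

theorem evP_mul0 (b a : P) : evP f (pmul0 b a) = evP f a * evP f b := by
  induction a with
  | z => exact (zero_mul _).symm
  | c p q => exact evP_sm' f p q b
  | n a0 a1 a2 a3 a4 h0 h1 h2 h3 h4 =>
    show evP f (.n (pmul0 b a0) (pmul0 b a1) (pmul0 b a2) (pmul0 b a3) (pmul0 b a4)) = _
    simp only [evP, h0, h1, h2, h3, h4, add_mul, mul_assoc]
  | s u v h1 h2 =>
    show evP f (.s (pmul0 b u) (pmul0 b v)) = _
    simp only [evP, h1, h2, add_mul]

theorem evP_mul (a b : P) : evP f (pmul a b) = evP f a * evP f b := by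
  cases b with
  | z => exact (mul_zero _).symm
  | c p q => exact evP_mul0 f _ a
  | n b0 b1 b2 b3 b4 => exact evP_mul0 f _ a
  | s u v => exact evP_mul0 f _ a

theorem hm_evP : Hm (evP f) where
  add := evP_add f
  neg := evP_neg f
  mul := evP_mul f
  zero := rfl
  one := by show ((1 : ℕ) : S) - (0 : ℕ) = 1; simp

theorem evP_pl (hf : ∀ k, f (k + 4) = f 4) (k : ℕ) (t : P) : evP f (pl k t) = f k * evP f t := by
  match k with
  | 0 => simp [pl, evP]
  | 1 => simp [pl, evP]
  | 2 => simp [pl, evP]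
  | 3 => simp [pl, evP]
  | k + 4 => simp [pl, evP, hf]

theorem evP_pw (hf : ∀ k, f (k + 4) = f 4) (w : List ℕ) (t : P) :
    evP f (pw w t) = (w.map f).prod * evP f t := by
  induction w with
  | nil => simp [pw]
  | cons k w ih =>
    show evP f (pl k (pw w t)) = _
    rw [evP_pl f hf, ih, List.map_cons, List.prod_cons, mul_assoc]

end evP

end Pool.Agent.P.MP_9682d1_al.E.One
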