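import Pool.Agent.P.MP_9682d1_al.E.OneA

set_option autoImplicit false
set_option linter.dupNamespace false

namespace Pool.Agent.P.MP_9682d1_al.E.One

open Pool.Agent.P.MP_9682d1_al.E

/-! ### shapes of words -/

def cX : List Bool → ℕ
  | [] => 0
  | b :: s => cond b (cX s + 1) (cX s)

def cY : List Bool → ℕ
  | [] => 0
  | b :: s => cond b (cY s) (cY s + 1)

def ph : List Bool → ℕ
  | [] => 0
  | b :: s => cond b (ph s) (8 ^ cX s + ph s)

def shn (w : List ℕ) : List Bool := w.map fun k => Nat.beq k 0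

def ins (a : ℕ) : List ℕ → List ℕ
  | [] => [a]
  | b :: v => cond (Nat.blt 0 b && Nat.blt b a) (b :: ins a v) (a :: b :: v)

def srt : List ℕ → List ℕ
  | [] => []
  | a :: w => ins a (srt w)

def shift : ℕ → ℕ
  | 0 => 0
  | j + 1 => j + 2

/-- the word of a given shape with letters `1, 2, ...` in this order -/
def tg : List Bool → List ℕ
  | [] => []
  | true :: s => 0 :: tg s
  | false :: s => 1 :: (tg s).map shift

/-! ### the checker -/

inductive Lm : Type
  | l (k : ℕ) : Lm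
  | b (u v : Lm) : Lm

noncomputable def Lm.vP : Lm → P
  | .l k => pl k (.c 1 0)
  | .b u v => padd (pmul u.vP v.vP) (pneg (pmul v.vP u.vP))

def Lm.hx : Lm → Bool
  | .l k => Nat.beq k 0
  | .b u v => u.hx || v.hx

def Lm.h2 : Lm → Bool
  | .l _ => false
  | .b u v => u.hx || v.hx

inductive Bs : Type
  | f (u : Lm) (zs : List Lm) : Bs
  | d0 (u : Lm) : Bs
  | d1 (u z : Lm) : Bs

noncomputable def Bs.vP : Bs → P
  | .f u zs => Fm u.vP (zs.map Lm.vP)
  | .d0 u => D0 (pl 0 (.c 1 0)) u.vP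
  | .d1 u z => cond z.h2 (D1 (pl 0 (.c 1 0)) u.vP z.vP) .z

structure Tm : Type where
  p : ℕ
  q : ℕ
  l : List ℕ
  r : List ℕ

noncomputable def sumT (v : P) (ts : List Tm) (acc : P) : P :=
  ts.foldr (fun t a => padd (pw t.l (pmul v (pw t.r (.c t.p t.q)))) a) acc

noncomputable def sumB (bs : List (Bs × List Tm)) (acc : P) : P :=
  bs.foldr (fun b a => sumT b.1.vP b.2 a) acc

noncomputable def nrm (i d f0 : ℕ) (a : P) : List ℕ → P :=
  P.rec (motive := fun _ => List ℕ → P) (fun _ => .z)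
    (fun p q w => cond (Nat.beq p q) .z (cond (Nat.beq (cX (shn w)) i && Nat.beq (cY (shn w)) d)
      (cond (Nat.blt f0 (ph (shn w))) .z (pw (srt w) (.c p q))) (pw w (.c p q))))
    (fun _ _ _ _ _ r0 r1 r2 r3 r4 w => padd (r0 (w ++ [0])) (padd (r1 (w ++ [1]))
      (padd (r2 (w ++ [2])) (padd (r3 (w ++ [3])) (r4 (w ++ [4]))))))
    (fun _ _ r t w => padd (r w) (t w)) a

noncomputable def fin (i m : ℕ) (a : P) : List ℕ → Bool :=
  P.rec (motive := fun _ => List ℕ → Bool) (fun _ => true)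
    (fun p q w => Nat.beq (cX (shn w)) i && Nat.beq (Nat.mod p m) (Nat.mod q m))
    (fun _ _ _ _ _ r0 r1 r2 r3 r4 w => r0 (w ++ [0]) && (r1 (w ++ [1]) &&
      (r2 (w ++ [2]) && (r3 (w ++ [3]) && r4 (w ++ [4])))))
    (fun _ _ r t w => r w && t w) a

noncomputable def chk (m N : ℕ) (s : List Bool) (bs : List (Bs × List Tm)) : Bool :=
  (tg s).all (fun k => Nat.ble k 4) &&
    fin (cX s) m (nrm (cX s) (cY s) (ph s) (sumB bs (pw (tg s) (.c N 0))) []) []

end Pool.Agent.P.MP_9682d1_al.E.One
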