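import Pool.Agent.P.MP_9682d1_al.E.OneB

set_option autoImplicit false
set_option linter.dupNamespace false

namespace Pool.Agent.P.MP_9682d1_al.E.One

open Pool.Agent.P.MP_9682d1_al.E

theorem cX_append (s t : List Bool) : cX (s ++ t) = cX s + cX t := by
  induction s with
  | nil => simp [cX]
  | cons b s ih => cases b <;> simp [cX, ih]; omega

theorem cY_append (s t : List Bool) : cY (s ++ t) = cY s + cY t := by
  induction s with
  | nil => simp [cY]
  | cons b s ih => cases b <;> simp [cY, ih]; omega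

theorem ph_append (s t : List Bool) : ph (s ++ t) = ph s * 8 ^ cX t + ph t := by
  induction s with
  | nil => simp [ph]
  | cons b s ih => cases b <;> simp [ph, ih, cX_append, pow_add]; ring

theorem ph_le (s : List Bool) : ph s ≤ cY s * 8 ^ cX s := by
  induction s with
  | nil => simp [ph]
  | cons b s ih =>
    cases b
    · simp only [ph, cY, cX, cond_false]; rw [add_mul, one_mul]; omega
    · simp only [ph, cY, cX, cond_true]
      exact ih.trans (Nat.mul_le_mul_left _ (Nat.pow_le_pow_right (by norm_num) (Nat.le_succ _)))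

variable {S : Type} [Ring S]

def sh (w : List (Option S)) : List Bool := w.map Option.isNone

def Vw (L0 : Set S) (w : List (Option S)) : Prop := ∀ y, some y ∈ w → y ∈ L0

def Lt (s s0 : List Bool) : Prop := cY s < cY s0 ∨ (cY s = cY s0 ∧ ph s0 < ph s)

def Gs (x : S) (L0 : Set S) (m : ℕ) (s0 : List Bool) : Set S :=
  {t | ∃ w, Vw L0 w ∧ cX (sh w) = cX s0 ∧ ((t = ev x w ∧ Lt (sh w) s0) ∨ t = m • ev x w)}

def io (ys : ℕ → S) : ℕ → Option S
  | 0 => none
  | k + 1 => some (ys (min k 3))

def fv (x : S) (ys : ℕ → S) (k : ℕ) : S := (io ys k).getD x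

theorem fv_four (x : S) (ys : ℕ → S) (k : ℕ) : fv x ys (k + 4) = fv x ys 4 := by
  simp [fv, io]

theorem ev_append (x : S) (u v : List (Option S)) : ev x (u ++ v) = ev x u * ev x v := by
  simp [ev]

theorem ev_cons (x : S) (a : Option S) (v : List (Option S)) :
    ev x (a :: v) = a.getD x * ev x v := by
  simp [ev]

theorem ev_io (x : S) (ys : ℕ → S) (w : List ℕ) :
    ev x (w.map (io ys)) = (w.map (fv x ys)).prod := by
  simp only [ev, List.map_map]; rfl

theorem sh_append (u v : List (Option S)) : sh (u ++ v) = sh u ++ sh v := List.map_append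

theorem isNone_io (ys : ℕ → S) (k : ℕ) : (io ys k).isNone = Nat.beq k 0 := by
  cases k <;> rfl

theorem sh_io (ys : ℕ → S) (w : List ℕ) : sh (w.map (io ys)) = shn w := by
  simp only [sh, shn, List.map_map]
  exact List.map_congr_left fun k _ => isNone_io ys k

theorem Vw.append {L0 : Set S} {u v : List (Option S)} (hu : Vw L0 u) (hv : Vw L0 v) :
    Vw L0 (u ++ v) := fun y hy => (List.mem_append.1 hy).elim (hu y) (hv y)

theorem vw_io {L0 : Set S} {ys : ℕ → S} (hy : ∀ k, ys k ∈ L0) (w : List ℕ) :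
    Vw L0 (w.map (io ys)) := by
  intro y h
  obtain ⟨k, -, hk⟩ := List.mem_map.1 h
  cases k with
  | zero => cases hk
  | succ k => cases hk; exact hy _

theorem cX_ins (a : ℕ) (v : List ℕ) : cX (shn (ins a v)) = cX (shn (a :: v)) := by
  induction v with
  | nil => rfl
  | cons b v ih =>
    unfold ins
    cases (Nat.blt 0 b && Nat.blt b a)
    · rfl
    · simp only [cond_true, shn, List.map_cons, cX] at ih ⊢
      rw [ih]
      cases Nat.beq a 0 <;> cases Nat.beq b 0 <;> rfl

theorem cY_ins (a : ℕ) (v : List ℕ) : cY (shn (ins a v)) = cY (shn (a :: v)) := by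
  induction v with
  | nil => rfl
  | cons b v ih =>
    unfold ins
    cases (Nat.blt 0 b && Nat.blt b a)
    · rfl
    · simp only [cond_true, shn, List.map_cons, cY] at ih ⊢
      rw [ih]
      cases Nat.beq a 0 <;> cases Nat.beq b 0 <;> rfl

theorem cX_srt (w : List ℕ) : cX (shn (srt w)) = cX (shn w) := by
  induction w with
  | nil => rfl
  | cons a w ih =>
    rw [srt, cX_ins]
    simp only [shn, List.map_cons, cX] at ih ⊢
    rw [ih]

theorem cY_srt (w : List ℕ) : cY (shn (srt w)) = cY (shn w) := by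
  induction w with
  | nil => rfl
  | cons a w ih =>
    rw [srt, cY_ins]
    simp only [shn, List.map_cons, cY] at ih ⊢
    rw [ih]

section sound

variable {x : S} {L0 L L1 L2 : Set S} (hI : Ids S x L0 L L1 L2) {ys : ℕ → S}
  (hy : ∀ k, ys k ∈ L0) (m : ℕ) (s0 : List Bool)

include hI hy

theorem ins_mem (a : ℕ) (v : List ℕ) : ∀ u : List (Option S), Vw L0 u →
    cX (sh u) + cX (shn (a :: v)) = cX s0 → cY (sh u) + cY (shn (a :: v)) = cY s0 →
    ev x (u ++ (a :: v).map (io ys)) - ev x (u ++ (ins a v).map (io ys)) ∈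
      AddSubgroup.closure (Gs x L0 m s0) := by
  induction v with
  | nil => intro u _ _ _; simp [ins]
  | cons b v ih =>
    intro u hu hX hY
    unfold ins
    cases hc : (Nat.blt 0 b && Nat.blt b a)
    · simp
    · simp only [Bool.and_eq_true, Nat.blt_eq] at hc
      obtain ⟨b, rfl⟩ : ∃ b', b = b' + 1 := ⟨b - 1, by omega⟩
      obtain ⟨a, rfl⟩ : ∃ a', a = a' + 1 := ⟨a - 1, by omega⟩
      have hX' : cX (sh u) + cX (shn v) = cX s0 := hX
      have hY' : cY (sh u) + (cY (shn v) + 1 + 1) = cY s0 := hY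
      have h1 := ih (u ++ [io ys (b + 1)]) (hu.append (vw_io hy [b + 1]))
        (by rw [sh_append, cX_append]; exact hX')
        (by rw [sh_append, cY_append]
            show cY (sh u) + 1 + (cY (shn v) + 1) = _
            omega)
      have h2 : ev x (u ++ some (ys (min a 3) * ys (min b 3) - ys (min b 3) * ys (min a 3)) ::
          v.map (io ys)) ∈ AddSubgroup.closure (Gs x L0 m s0) := by
        refine AddSubgroup.subset_closure ⟨_, hu.append ?_, ?_, Or.inl ⟨rfl, Or.inl ?_⟩⟩
        · intro y h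
          rcases List.mem_cons.1 h with h | h
          · cases h; exact hI.br0 _ (hy _) _ (hy _)
          · exact vw_io hy v y h
        · rw [sh_append, cX_append, ← hX', ← sh_io ys v]; rfl
        · rw [sh_append, cY_append, ← hY', ← sh_io ys v]
          show cY (sh u) + (cY (sh (v.map (io ys))) + 1) < _
          omega
      convert AddSubgroup.add_mem _ h1 h2 using 1
      simp only [cond_true, List.map_cons, List.append_assoc, List.singleton_append, ev_append,
        ev_cons, io, Option.getD_some]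
      noncomm_ring

theorem srt_mem (w : List ℕ) : ∀ u : List (Option S), Vw L0 u →
    cX (sh u) + cX (shn w) = cX s0 → cY (sh u) + cY (shn w) = cY s0 →
    ev x (u ++ w.map (io ys)) - ev x (u ++ (srt w).map (io ys)) ∈
      AddSubgroup.closure (Gs x L0 m s0) := by
  induction w with
  | nil => intro u _ _ _; simp [srt]
  | cons a w ih =>
    intro u hu hX hY
    have e1 : cX (shn (a :: w)) = cX (shn [a]) + cX (shn w) := cX_append (shn [a]) (shn w)
    have e2 : cY (shn (a :: w)) = cY (shn [a]) + cY (shn w) := cY_append (shn [a]) (shn w)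
    have e3 : cX (shn (a :: srt w)) = cX (shn [a]) + cX (shn (srt w)) :=
      cX_append (shn [a]) (shn (srt w))
    have e4 : cY (shn (a :: srt w)) = cY (shn [a]) + cY (shn (srt w)) :=
      cY_append (shn [a]) (shn (srt w))
    have h1 := ih (u ++ [a].map (io ys)) (hu.append (vw_io hy [a]))
      (by rw [sh_append, cX_append, sh_io]; omega) (by rw [sh_append, cY_append, sh_io]; omega)
    have h2 := ins_mem hI hy m s0 a (srt w) u hu (by rw [e3, cX_srt]; omega)
      (by rw [e4, cY_srt]; omega)
    convert AddSubgroup.add_mem _ h1 h2 using 1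
    simp only [srt, List.map_cons, List.map_nil, List.append_assoc, List.singleton_append]
    abel

theorem word_mem (w : List ℕ) (hX : cX (shn w) = cX s0) (hl : Lt (shn w) s0) :
    (w.map (fv x ys)).prod ∈ AddSubgroup.closure (Gs x L0 m s0) :=
  AddSubgroup.subset_closure ⟨w.map (io ys), vw_io hy w, by rw [sh_io]; exact hX,
    Or.inl ⟨(ev_io x ys w).symm, by rw [sh_io]; exact hl⟩⟩

omit hI hy in
theorem mul_cast_mem {A : AddSubgroup S} {t : S} (h : t ∈ A) (p q : ℕ) :
    t * ((p : S) - q) ∈ A := by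
  rw [mul_sub, ← nsmul_eq_mul', ← nsmul_eq_mul']
  exact A.sub_mem (A.nsmul_mem h p) (A.nsmul_mem h q)

theorem nrm_mem (a : P) : ∀ w : List ℕ,
    (w.map (fv x ys)).prod * evP (fv x ys) a - evP (fv x ys) (nrm (cX s0) (cY s0) (ph s0) a w) ∈
      AddSubgroup.closure (Gs x L0 m s0) := by
  induction a with
  | z => intro w; show _ * 0 - 0 ∈ _; simp
  | c p q =>
    intro w
    show _ * ((p : S) - q) - evP _ (cond (Nat.beq p q) .z
      (cond (Nat.beq (cX (shn w)) (cX s0) && Nat.beq (cY (shn w)) (cY s0))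
      (cond (Nat.blt (ph s0) (ph (shn w))) .z (pw (srt w) (.c p q))) (pw w (.c p q)))) ∈ _
    cases h1 : Nat.beq p q
    · cases h2 : (Nat.beq (cX (shn w)) (cX s0) && Nat.beq (cY (shn w)) (cY s0))
      · simp only [cond_false, evP_pw _ (fv_four x ys), evP, sub_self]
        exact AddSubgroup.zero_mem _
      · simp only [Bool.and_eq_true, Nat.beq_eq] at h2
        cases h3 : Nat.blt (ph s0) (ph (shn w))
        · simp only [cond_false, cond_true, evP_pw _ (fv_four x ys), evP, ← sub_mul]
          refine mul_cast_mem ?_ p q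
          have := srt_mem hI hy m s0 w [] (fun _ h => by cases h) (by simpa [sh, cX] using h2.1)
            (by simpa [sh, cY] using h2.2)
          simpa only [List.nil_append, ev_io] using this
        · simp only [cond_false, cond_true, evP, sub_zero]
          exact mul_cast_mem (word_mem hI hy m s0 w h2.1
            (Or.inr ⟨h2.2, Nat.blt_eq.mp h3⟩)) p q
    · rw [Nat.eq_of_beq_eq_true h1]; simp [evP]
  | n a0 a1 a2 a3 a4 h0 h1 h2 h3 h4 =>
    intro w
    have := AddSubgroup.add_mem _ (h0 (w ++ [0])) (AddSubgroup.add_mem _ (h1 (w ++ [1]))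
      (AddSubgroup.add_mem _ (h2 (w ++ [2])) (AddSubgroup.add_mem _ (h3 (w ++ [3]))
        (h4 (w ++ [4])))))
    convert this using 1
    show _ - evP _ (padd (nrm _ _ _ a0 (w ++ [0])) (padd (nrm _ _ _ a1 (w ++ [1]))
      (padd (nrm _ _ _ a2 (w ++ [2])) (padd (nrm _ _ _ a3 (w ++ [3]))
        (nrm _ _ _ a4 (w ++ [4])))))) = _
    simp only [evP_add, evP, List.map_append, List.prod_append, List.map_cons, List.map_nil,
      List.prod_cons, List.prod_nil, mul_one, mul_add, mul_assoc]
    abel
  | s u v h1 h2 =>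
    intro w
    convert AddSubgroup.add_mem _ (h1 w) (h2 w) using 1
    show _ - evP _ (padd (nrm _ _ _ u w) (nrm _ _ _ v w)) = _
    simp only [evP_add, evP, mul_add]
    abel

omit hI in
theorem fin_mem (a : P) : ∀ w : List ℕ, fin (cX s0) m a w = true →
    (w.map (fv x ys)).prod * evP (fv x ys) a ∈ AddSubgroup.closure (Gs x L0 m s0) := by
  induction a with
  | z => intro w _; show _ * 0 ∈ _; simp
  | c p q =>
    intro w h
    have h' : (Nat.beq (cX (shn w)) (cX s0) && Nat.beq (p % m) (q % m)) = true := h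
    simp only [Bool.and_eq_true, Nat.beq_eq] at h'
    have hm : m • (w.map (fv x ys)).prod ∈ AddSubgroup.closure (Gs x L0 m s0) :=
      AddSubgroup.subset_closure ⟨w.map (io ys), vw_io hy w, by rw [sh_io]; exact h'.1,
        Or.inr (by rw [ev_io])⟩
    have e : ((p : S) - q) = (m : S) * (((p / m : ℕ) : S) - ((q / m : ℕ) : S)) := by
      conv_lhs => rw [← Nat.div_add_mod p m, ← Nat.div_add_mod q m, h'.2]
      push_cast; noncomm_ring
    show _ * ((p : S) - q) ∈ _
    rw [e, ← mul_assoc, ← nsmul_eq_mul']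
    exact mul_cast_mem hm _ _
  | n a0 a1 a2 a3 a4 h0 h1 h2 h3 h4 =>
    intro w h
    have h' : (fin _ m a0 (w ++ [0]) && (fin _ m a1 (w ++ [1]) && (fin _ m a2 (w ++ [2]) &&
      (fin _ m a3 (w ++ [3]) && fin _ m a4 (w ++ [4]))))) = true := h
    simp only [Bool.and_eq_true] at h'
    have := AddSubgroup.add_mem _ (h0 _ h'.1) (AddSubgroup.add_mem _ (h1 _ h'.2.1)
      (AddSubgroup.add_mem _ (h2 _ h'.2.2.1) (AddSubgroup.add_mem _ (h3 _ h'.2.2.2.1)
        (h4 _ h'.2.2.2.2))))
    convert this using 1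
    simp only [evP, List.map_append, List.prod_append, List.map_cons, List.map_nil,
      List.prod_cons, List.prod_nil, mul_one, mul_add, mul_assoc]
    abel
  | s u v h1 h2 =>
    intro w h
    have h' : (fin _ m u w && fin _ m v w) = true := h
    simp only [Bool.and_eq_true] at h'
    convert AddSubgroup.add_mem _ (h1 w h'.1) (h2 w h'.2) using 1
    simp only [evP, mul_add]

theorem lm_mem (u : Lm) : evP (fv x ys) u.vP ∈ L ∧ (u.hx = true → evP (fv x ys) u.vP ∈ L1) ∧
    (u.h2 = true → evP (fv x ys) u.vP ∈ L2) := by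
  induction u with
  | l k =>
    have e : evP (fv x ys) (Lm.l k).vP = fv x ys k := by
      simp [Lm.vP, evP_pl _ (fv_four x ys), evP]
    rw [e]
    cases k with
    | zero => exact ⟨hI.sub1 hI.memx, fun _ => hI.memx, fun h => by cases h⟩
    | succ k => exact ⟨hI.sub0 (hy _), fun h => Bool.noConfusion h, fun h => Bool.noConfusion h⟩
  | b u v h1 h2 =>
    have e : evP (fv x ys) (Lm.b u v).vP = evP (fv x ys) u.vP * evP (fv x ys) v.vP -
        evP (fv x ys) v.vP * evP (fv x ys) u.vP := by
      simp only [Lm.vP, evP_add, evP_neg, evP_mul, sub_eq_add_neg]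
    rw [e]
    have h3 : (u.hx || v.hx) = true → evP (fv x ys) u.vP * evP (fv x ys) v.vP -
        evP (fv x ys) v.vP * evP (fv x ys) u.vP ∈ L2 := fun h => by
      rcases Bool.or_eq_true_iff.1 h with h | h
      · exact hI.brl _ (h1.2.1 h) _ h2.1
      · exact hI.brr _ h1.1 _ (h2.2.1 h)
    exact ⟨hI.br _ h1.1 _ h2.1, fun h => hI.sub2 (h3 h), h3⟩

theorem bs_zero (b : Bs) : evP (fv x ys) b.vP = 0 := by
  have ex : evP (fv x ys) (pl 0 (.c 1 0)) = x := by
    simp [evP_pl _ (fv_four x ys), evP, fv, io]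
  cases b with
  | f u zs =>
    rw [Bs.vP, (hm_evP _).fm]
    refine hI.fm _ (lm_mem hI hy u).1 _ fun z hz => ?_
    obtain ⟨z', hz', rfl⟩ := List.mem_map.1 hz
    obtain ⟨v, -, rfl⟩ := List.mem_map.1 hz'
    exact (lm_mem hI hy v).1
  | d0 u => rw [Bs.vP, (hm_evP _).d0, ex]; exact hI.d0 _ (lm_mem hI hy u).1
  | d1 u z =>
    rw [Bs.vP]
    cases h : z.h2
    · rfl
    · rw [cond_true, (hm_evP _).d1, ex]
      exact hI.d1 _ (lm_mem hI hy u).1 _ ((lm_mem hI hy z).2.2 h)

theorem sumB_eq (bs : List (Bs × List Tm)) (acc : P) :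
    evP (fv x ys) (sumB bs acc) = evP (fv x ys) acc := by
  induction bs with
  | nil => rfl
  | cons b bs ih =>
    rw [← ih]
    show evP _ (sumT b.1.vP b.2 (sumB bs acc)) = _
    generalize sumB bs acc = a
    induction b.2 with
    | nil => rfl
    | cons t ts ih2 =>
      show evP _ (padd (pw t.l (pmul b.1.vP (pw t.r (.c t.p t.q)))) (sumT b.1.vP ts a)) = _
      rw [evP_add, ih2, evP_pw _ (fv_four x ys), evP_mul, bs_zero hI hy]
      simp

theorem chk_mem (N : ℕ) (bs : List (Bs × List Tm)) (h : chk m N s0 bs = true) :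
    N • ev x ((tg s0).map (io ys)) ∈ AddSubgroup.closure (Gs x L0 m s0) := by
  unfold chk at h
  rw [Bool.and_eq_true] at h
  have h1 := fin_mem (x := x) hy m s0 _ [] h.2
  have h2 := nrm_mem hI hy m s0 (sumB bs (pw (tg s0) (.c N 0))) []
  have h3 := AddSubgroup.add_mem _ h2 h1
  simp only [List.map_nil, List.prod_nil, one_mul, sub_add_cancel] at h3
  rw [sumB_eq hI hy, evP_pw _ (fv_four x ys)] at h3
  rw [ev_io, nsmul_eq_mul']
  simpa [evP] using h3

end sound

def io' (ys : ℕ → S) : ℕ → Option S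
  | 0 => none
  | k + 1 => some (ys k)

omit [Ring S] in
theorem ex_ys {L0 : Set S} {y0 : S} (h0 : y0 ∈ L0) (w : List (Option S)) (hw : Vw L0 w) :
    ∃ ys : ℕ → S, (∀ k, ys k ∈ L0) ∧ w = (tg (sh w)).map (io' ys) := by
  induction w with
  | nil => exact ⟨fun _ => y0, fun _ => h0, rfl⟩
  | cons a w ih =>
    obtain ⟨ys, h1, h2⟩ := ih fun y hy => hw y (List.mem_cons_of_mem _ hy)
    cases a with
    | none => exact ⟨ys, h1, congrArg (none :: ·) h2⟩
    | some y =>
      refine ⟨fun k => Nat.casesOn k y ys, fun k => ?_, ?_⟩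
      · cases k with
        | zero => exact hw y List.mem_cons_self
        | succ k => exact h1 k
      · show some y :: w = some y :: ((tg (sh w)).map shift).map _
        rw [List.map_map]
        refine congrArg (some y :: ·) (h2.trans (List.map_congr_left fun k _ => ?_))
        cases k <;> rfl

/-- a rewriting rule -/
def Rule (m N : ℕ) (s0 : List Bool) : Prop :=
  ∀ (S : Type) [Ring S] (x : S) (L0 L L1 L2 : Set S), Ids S x L0 L L1 L2 → ∀ y0 ∈ L0,
    ∀ w : List (Option S), Vw L0 w → sh w = s0 →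
      N • ev x w ∈ AddSubgroup.closure (Gs x L0 m s0)

theorem rule_of_chk {m N : ℕ} {s0 : List Bool} {bs : List (Bs × List Tm)}
    (h : chk m N s0 bs = true) : Rule m N s0 := by
  intro S _ x L0 L L1 L2 hI y0 h0 w hw hs
  obtain ⟨ys, h1, h2⟩ := ex_ys h0 w hw
  have h3 := chk_mem hI h1 m s0 N bs h
  unfold chk at h
  rw [Bool.and_eq_true, List.all_eq_true] at h
  have e : (tg s0).map (io ys) = (tg s0).map (io' ys) := List.map_congr_left fun k hk => by
    have := Nat.le_of_ble_eq_true (h.1 k hk)
    cases k with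
    | zero => rfl
    | succ k => simp only [io, io']; rw [min_eq_left (by omega)]
  rw [e, ← hs, ← h2] at h3
  rwa [← hs]

end Pool.Agent.P.MP_9682d1_al.E.One
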